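import Mathlib

set_option autoImplicit false

open Filter Topology Matrix

namespace Pool.Agent.Results.MP_afaa81_pr.NuclearRecovery

noncomputable section

/-- The nuclear norm of a real matrix: the sum of its singular values, i.e. of the square roots
of the eigenvalues (with multiplicity) of `Aᴴ * A = Aᵀ * A`. -/
def nuc {m n : ℕ} (A : Matrix (Fin m) (Fin n) ℝ) : ℝ :=
  ∑ i, Real.sqrt ((Matrix.isHermitian_conjTranspose_mul_self A).eigenvalues i)

/-- The normalised Frobenius norm `((1 / (m n)) ∑ a_ij ^ 2) ^ (1/2)`. -/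
def fro {m n : ℕ} (A : Matrix (Fin m) (Fin n) ℝ) : ℝ :=
  Real.sqrt ((∑ i, ∑ j, A i j ^ 2) / ((m : ℝ) * (n : ℝ)))

/-- Binary matrices. -/
def IsBinary {m n : ℕ} (P : Matrix (Fin m) (Fin n) ℝ) : Prop :=
  ∀ i j, P i j = 0 ∨ P i j = 1

/-- The sequence `P k` (of size `m k × n k`) admits stable recovery of low rank matrices. -/
def StableRecovery (m n : ℕ → ℕ) (P : ∀ k, Matrix (Fin (m k)) (Fin (n k)) ℝ) : Prop :=
  ∀ (K : ℕ) (L ε : ℝ), 0 < L → 0 < ε → ∃ δ : ℝ, 0 < δ ∧
    ∀ A B : ∀ k, Matrix (Fin (m k)) (Fin (n k)) ℝ,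
      (∀ k, (A k).rank ≤ K ∧ (B k).rank ≤ K ∧ (∀ i j, |A k i j| ≤ L) ∧ (∀ i j, |B k i j| ≤ L)) →
      limsup (fun k => fro ((A k - B k) ⊙ P k)) atTop ≤ δ →
      limsup (fun k => fro (A k - B k)) atTop ≤ ε

/-- `Ahat` is a nuclear norm minimiser for `(A, P)`. -/
def IsNucMin {m n : ℕ} (A P Ahat : Matrix (Fin m) (Fin n) ℝ) : Prop :=
  Ahat ⊙ P = A ⊙ P ∧ ∀ B : Matrix (Fin m) (Fin n) ℝ, B ⊙ P = A ⊙ P → nuc Ahat ≤ nuc B

/-! ### Singular value decomposition -/

lemma svd {m n : ℕ} (M : Matrix (Fin m) (Fin n) ℝ) :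
    ∃ (v : Fin n → Fin n → ℝ) (σ : Fin n → ℝ), (∀ j, 0 ≤ σ j) ∧ nuc M = ∑ j, σ j ∧
      (∀ i j, ∑ y, v i y * v j y = if i = j then 1 else 0) ∧
      (∀ y z, ∑ j, v j y * v j z = if y = z then 1 else 0) ∧
      (∀ i j, ∑ x, (∑ y, M x y * v i y) * (∑ y, M x y * v j y) = if i = j then σ j ^ 2 else 0) ∧
      (Finset.univ.filter (fun j => σ j ≠ 0)).card = M.rank := by
  classical
  set hG := Matrix.isHermitian_conjTranspose_mul_self M with hGdef
  have hlam : ∀ j, 0 ≤ hG.eigenvalues j := fun j =>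
    (Matrix.posSemidef_conjTranspose_mul_self M).eigenvalues_nonneg j
  have hv1 : ∀ i j, ∑ y, hG.eigenvectorBasis i y * hG.eigenvectorBasis j y
      = if i = j then (1 : ℝ) else 0 := by
    intro i j
    have h := (orthonormal_iff_ite.mp hG.eigenvectorBasis.orthonormal) i j
    rw [PiLp.inner_apply] at h
    simp only [RCLike.inner_apply, conj_trivial] at h
    rw [← h]
    exact Finset.sum_congr rfl fun y _ => mul_comm _ _
  refine ⟨fun j y => hG.eigenvectorBasis j y, fun j => Real.sqrt (hG.eigenvalues j),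
    fun j => Real.sqrt_nonneg _, rfl, hv1, ?_, ?_, ?_⟩
  · intro y z
    have h1 : (Matrix.of fun j y => hG.eigenvectorBasis j y) *
        (Matrix.of fun j y => hG.eigenvectorBasis j y)ᵀ = (1 : Matrix (Fin n) (Fin n) ℝ) := by
      ext i j
      rw [Matrix.mul_apply, Matrix.one_apply]
      simpa using hv1 i j
    have h2 := mul_eq_one_comm.mp h1
    have h3 := congrFun (congrFun h2 y) z
    rw [Matrix.mul_apply, Matrix.one_apply] at h3
    simpa using h3
  · intro i j
    have h1 := hG.mulVec_eigenvectorBasis j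
    have h2 : ∀ y, ∑ z, (Mᴴ * M) y z * hG.eigenvectorBasis j z
        = hG.eigenvalues j * hG.eigenvectorBasis j y := by
      intro y
      have := congrFun h1 y
      simpa [Matrix.mulVec, dotProduct] using this
    have h3 : ∑ x, (∑ y, M x y * hG.eigenvectorBasis i y) * (∑ y, M x y * hG.eigenvectorBasis j y)
        = ∑ y, hG.eigenvectorBasis i y * ∑ z, (Mᴴ * M) y z * hG.eigenvectorBasis j z := by
      have l1 : ∀ x, (∑ y, M x y * hG.eigenvectorBasis i y) *
          (∑ y, M x y * hG.eigenvectorBasis j y)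
          = ∑ y, ∑ z, (M x y * hG.eigenvectorBasis i y) * (M x z * hG.eigenvectorBasis j z) :=
        fun x => Finset.sum_mul_sum _ _ _ _
      have l2 : ∀ y, hG.eigenvectorBasis i y * ∑ z, (Mᴴ * M) y z * hG.eigenvectorBasis j z
          = ∑ z, ∑ x, (M x y * hG.eigenvectorBasis i y) * (M x z * hG.eigenvectorBasis j z) := by
        intro y
        rw [Finset.mul_sum]
        refine Finset.sum_congr rfl fun z _ => ?_
        rw [Matrix.mul_apply, Finset.sum_mul, Finset.mul_sum]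
        refine Finset.sum_congr rfl fun x _ => ?_
        rw [Matrix.conjTranspose_apply, star_trivial]
        ring
      simp only [l1, l2]
      rw [Finset.sum_comm]
      refine Finset.sum_congr rfl fun y _ => ?_
      rw [Finset.sum_comm]
    rw [h3]
    simp only [h2]
    have h4 : ∑ y, hG.eigenvectorBasis i y * (hG.eigenvalues j * hG.eigenvectorBasis j y)
        = hG.eigenvalues j * ∑ y, hG.eigenvectorBasis i y * hG.eigenvectorBasis j y := by
      rw [Finset.mul_sum]
      refine Finset.sum_congr rfl fun y _ => ?_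
      ring
    rw [h4, hv1, Real.sq_sqrt (hlam j)]
    split_ifs <;> simp
  · have h1 := hG.rank_eq_card_non_zero_eigs
    rw [Matrix.rank_conjTranspose_mul_self] at h1
    rw [h1, Fintype.card_subtype]
    congr 1
    ext j
    simp only [Finset.mem_filter, Finset.mem_univ, true_and]
    rw [Ne, Real.sqrt_eq_zero (hlam j)]

/-- A Bessel type inequality. -/
lemma bessel {ι κ : Type*} [Fintype ι] [DecidableEq ι] [Fintype κ] (u : ι → κ → ℝ) (e : ι → ℝ)
    (he : ∀ i, e i ≤ 1)
    (hu : ∀ i j, ∑ x, u i x * u j x = if i = j then e j else 0) (p : κ → ℝ) :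
    ∑ j, (∑ x, u j x * p x) ^ 2 ≤ ∑ x, p x ^ 2 := by
  set c : ι → ℝ := fun j => ∑ x, u j x * p x with hc
  have h0 : 0 ≤ ∑ x, (p x - ∑ j, c j * u j x) ^ 2 := Finset.sum_nonneg fun x _ => sq_nonneg _
  have h1 : ∑ x, (p x - ∑ j, c j * u j x) ^ 2
      = ∑ x, p x ^ 2 - 2 * ∑ j, c j ^ 2 + ∑ j, c j ^ 2 * e j := by
    have e1 : ∀ x, (p x - ∑ j, c j * u j x) ^ 2
        = p x ^ 2 - 2 * ∑ j, c j * (u j x * p x)
          + ∑ i, ∑ j, c i * c j * (u i x * u j x) := by
      intro x
      have : (∑ j, c j * u j x) ^ 2 = ∑ i, ∑ j, c i * c j * (u i x * u j x) := by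
        rw [sq, Finset.sum_mul_sum]
        refine Finset.sum_congr rfl fun i _ => Finset.sum_congr rfl fun j _ => ?_
        ring
      rw [sub_sq, this, mul_comm (2 * p x), ← mul_assoc, mul_comm _ 2, mul_assoc, Finset.sum_mul]
      congr 3
      refine Finset.sum_congr rfl fun j _ => ?_
      ring
    simp only [e1, Finset.sum_add_distrib, Finset.sum_sub_distrib]
    congr 1
    · congr 1
      rw [← Finset.mul_sum, Finset.sum_comm]
      congr 1
      refine Finset.sum_congr rfl fun j _ => ?_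
      rw [← Finset.mul_sum, sq]
    · rw [Finset.sum_comm]
      have : ∀ i, ∑ x, ∑ j, c i * c j * (u i x * u j x) = c i ^ 2 * e i := by
        intro i
        rw [Finset.sum_comm]
        have : ∀ j, ∑ x, c i * c j * (u i x * u j x) = if i = j then c i * c j * e j else 0 := by
          intro j
          rw [← Finset.mul_sum, hu i j]
          split_ifs <;> simp
        simp only [this]
        rw [Finset.sum_ite_eq]
        simp [sq]
      exact Finset.sum_congr rfl fun i _ => this i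
  have h2 : ∑ j, c j ^ 2 * e j ≤ ∑ j, c j ^ 2 := by
    refine Finset.sum_le_sum fun j _ => ?_
    nlinarith [sq_nonneg (c j), he j]
  rw [h1] at h0
  show ∑ j, c j ^ 2 ≤ _
  linarith

/-- The nuclear norm is bounded by the cost of any factorisation. -/
lemma nuc_le {ι : Type*} [Fintype ι] {m n : ℕ} (B : Matrix (Fin m) (Fin n) ℝ)
    (p : ι → Fin m → ℝ) (q : ι → Fin n → ℝ) (hB : ∀ x y, B x y = ∑ i, p i x * q i y) :
    nuc B ≤ ∑ i, Real.sqrt (∑ x, p i x ^ 2) * Real.sqrt (∑ y, q i y ^ 2) := by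
  classical
  obtain ⟨v, σ, hσ, hnuc, hv1, hv2, hw, -⟩ := svd B
  set w : Fin n → Fin m → ℝ := fun j x => ∑ y, B x y * v j y with hwdef
  set u : Fin n → Fin m → ℝ := fun j x => w j x / σ j with hudef
  have hu : ∀ i j, ∑ x, u i x * u j x = if i = j then (if σ j = 0 then 0 else 1) else 0 := by
    intro i j
    have : ∑ x, u i x * u j x = (∑ x, w i x * w j x) / (σ i * σ j) := by
      rw [Finset.sum_div]
      refine Finset.sum_congr rfl fun x _ => ?_
      simp only [hudef]
      rw [div_mul_div_comm]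
    rw [this, hw i j]
    by_cases hij : i = j
    · subst hij
      simp only [if_true]
      by_cases hs : σ i = 0
      · simp [hs]
      · simp only [hs, if_false]
        field_simp
    · simp [hij]
  have hσu : ∀ j, σ j = ∑ x, u j x * w j x := by
    intro j
    have : ∑ x, u j x * w j x = (∑ x, w j x * w j x) / σ j := by
      rw [Finset.sum_div]
      refine Finset.sum_congr rfl fun x _ => ?_
      simp only [hudef]
      ring
    rw [this, hw j j]
    by_cases hs : σ j = 0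
    · simp [hs]
    · simp only [if_true]
      field_simp
  have hkey : nuc B = ∑ i, ∑ j, (∑ x, u j x * p i x) * (∑ y, v j y * q i y) := by
    rw [hnuc, Finset.sum_comm]
    refine Finset.sum_congr rfl fun j _ => ?_
    rw [hσu j]
    have : ∀ x, u j x * w j x = ∑ i, (u j x * p i x) * (∑ y, v j y * q i y) := by
      intro x
      simp only [hwdef, hB, Finset.mul_sum, Finset.sum_mul]
      rw [Finset.sum_comm]
      refine Finset.sum_congr rfl fun i _ => ?_
      refine Finset.sum_congr rfl fun y _ => ?_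
      ring
    simp only [this]
    rw [Finset.sum_comm]
    refine Finset.sum_congr rfl fun i _ => ?_
    rw [Finset.sum_mul]
  rw [hkey]
  refine Finset.sum_le_sum fun i _ => ?_
  refine (Real.sum_mul_le_sqrt_mul_sqrt _ _ _).trans ?_
  have b1 := bessel u (fun j => if σ j = 0 then 0 else 1) (fun j => by
    split_ifs <;> norm_num) hu (p i)
  have b2 := bessel v (fun _ => 1) (fun _ => le_refl _) hv1 (q i)
  exact mul_le_mul (Real.sqrt_le_sqrt b1) (Real.sqrt_le_sqrt b2) (Real.sqrt_nonneg _)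
    (Real.sqrt_nonneg _)

/-- A cheap factorisation of a low rank matrix. -/
lemma lowrank {m n : ℕ} (M : Matrix (Fin m) (Fin n) ℝ) :
    ∃ (p : Fin n → Fin m → ℝ) (q : Fin n → Fin n → ℝ), (∀ x y, M x y = ∑ j, p j x * q j y) ∧
      ∑ j, Real.sqrt (∑ x, p j x ^ 2) * Real.sqrt (∑ y, q j y ^ 2)
        ≤ (M.rank : ℝ) * Real.sqrt (∑ x, ∑ y, M x y ^ 2) := by
  classical
  obtain ⟨v, σ, hσ, hnuc, hv1, hv2, hw, hrank⟩ := svd M
  refine ⟨fun j x => ∑ y, M x y * v j y, v, ?_, ?_⟩
  · intro x y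
    simp only [Finset.sum_mul]
    rw [Finset.sum_comm]
    have : ∀ z, ∑ j, M x z * v j z * v j y = M x z * (if z = y then 1 else 0) := by
      intro z
      rw [← hv2 z y, Finset.mul_sum]
      refine Finset.sum_congr rfl fun j _ => ?_
      ring
    simp only [this]
    simp
  · have h1 : ∀ j, Real.sqrt (∑ x, (∑ y, M x y * v j y) ^ 2) * Real.sqrt (∑ y, v j y ^ 2) = σ j := by
      intro j
      have e1 : ∑ x, (∑ y, M x y * v j y) ^ 2 = σ j ^ 2 := by
        have := hw j j
        simp only [if_true] at this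
        rw [← this]
        refine Finset.sum_congr rfl fun x _ => ?_
        ring
      have e2 : ∑ y, v j y ^ 2 = 1 := by
        have := hv1 j j
        simp only [if_true] at this
        rw [← this]
        refine Finset.sum_congr rfl fun x _ => ?_
        ring
      rw [e1, e2, Real.sqrt_sq (hσ j), Real.sqrt_one, mul_one]
    simp only [h1]
    have h2 : ∀ j, σ j ≤ Real.sqrt (∑ x, ∑ y, M x y ^ 2) := by
      intro j
      apply Real.le_sqrt_of_sq_le
      have e1 : ∑ x, (∑ y, M x y * v j y) ^ 2 = σ j ^ 2 := by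
        have := hw j j
        simp only [if_true] at this
        rw [← this]
        refine Finset.sum_congr rfl fun x _ => ?_
        ring
      rw [← e1]
      refine Finset.sum_le_sum fun x _ => ?_
      have b := bessel v (fun _ => 1) (fun _ => le_refl _) hv1 (fun y => M x y)
      refine le_trans ?_ b
      have : (∑ y, M x y * v j y) ^ 2 = (∑ y, v j y * M x y) ^ 2 := by
        congr 1
        refine Finset.sum_congr rfl fun y _ => mul_comm _ _
      rw [this]
      exact Finset.single_le_sum (f := fun j => (∑ y, v j y * M x y) ^ 2)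
        (fun i _ => sq_nonneg _) (Finset.mem_univ j)
    have h3 : ∑ j, σ j = ∑ j ∈ Finset.univ.filter (fun j => σ j ≠ 0), σ j := by
      rw [Finset.sum_filter_ne_zero]
    rw [h3]
    calc ∑ j ∈ Finset.univ.filter (fun j => σ j ≠ 0), σ j
        ≤ ∑ j ∈ Finset.univ.filter (fun j => σ j ≠ 0), Real.sqrt (∑ x, ∑ y, M x y ^ 2) :=
          Finset.sum_le_sum fun j _ => h2 j
      _ = (M.rank : ℝ) * Real.sqrt (∑ x, ∑ y, M x y ^ 2) := by
          rw [Finset.sum_const, nsmul_eq_mul, hrank]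

/-- The normalised singular value decomposition. -/
lemma nsvd {m n : ℕ} (hm : 0 < m) (hn : 0 < n) (M : Matrix (Fin m) (Fin n) ℝ) :
    ∃ (X : Fin n → Fin m → ℝ) (Y : Fin n → Fin n → ℝ) (s : Fin n → ℝ), (∀ j, 0 ≤ s j) ∧
      nuc M = Real.sqrt m * Real.sqrt n * ∑ j, s j ∧
      (∀ x y, M x y = ∑ j, X j x * Y j y) ∧
      (∀ i j, ∑ x, X i x * X j x = if i = j then s j * m else 0) ∧
      (∀ i j, ∑ y, Y i y * Y j y = if i = j then s j * n else 0) ∧
      (∀ j, s j = 0 → ∀ x, X j x = 0) ∧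
      (Finset.univ.filter (fun j => s j ≠ 0)).card = M.rank := by
  classical
  obtain ⟨v, σ, hσ, hnuc, hv1, hv2, hw, hrank⟩ := svd M
  have hmr : (0 : ℝ) < m := by exact_mod_cast hm
  have hnr : (0 : ℝ) < n := by exact_mod_cast hn
  have ha : 0 < Real.sqrt m := Real.sqrt_pos.mpr hmr
  have hb : 0 < Real.sqrt n := Real.sqrt_pos.mpr hnr
  have ha2 : Real.sqrt m * Real.sqrt m = m := Real.mul_self_sqrt hmr.le
  have hb2 : Real.sqrt n * Real.sqrt n = n := Real.mul_self_sqrt hnr.le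
  set s : Fin n → ℝ := fun j => σ j / (Real.sqrt m * Real.sqrt n) with hs
  have hs0 : ∀ j, 0 ≤ s j := fun j => div_nonneg (hσ j) (by positivity)
  have hsσ : ∀ j, σ j = Real.sqrt m * Real.sqrt n * s j := by
    intro j; simp only [hs]; field_simp
  have hszero : ∀ j, s j = 0 ↔ σ j = 0 := by
    intro j
    rw [hsσ j]
    constructor
    · intro h; rw [h]; ring
    · intro h
      rcases mul_eq_zero.mp h with h | h
      · exact absurd h (by positivity)
      · exact h
  set w : Fin n → Fin m → ℝ := fun j x => ∑ y, M x y * v j y with hwdef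
  have hw0 : ∀ j, s j = 0 → ∀ x, w j x = 0 := by
    intro j hj x
    have h1 := hw j j
    simp only [if_true] at h1
    rw [(hszero j).mp hj] at h1
    have h2 : ∀ x ∈ Finset.univ, w j x * w j x = 0 := by
      rw [← Finset.sum_eq_zero_iff_of_nonneg (fun x _ => mul_self_nonneg _)]
      simpa using h1
    exact mul_self_eq_zero.mp (h2 x (Finset.mem_univ x))
  refine ⟨fun j x => w j x / (Real.sqrt (s j) * Real.sqrt n),
    fun j y => Real.sqrt (s j) * Real.sqrt n * v j y, s, hs0, ?_, ?_, ?_, ?_, ?_, ?_⟩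
  · rw [hnuc, Finset.mul_sum]
    exact Finset.sum_congr rfl fun j _ => hsσ j
  · intro x y
    have e1 : ∀ j, w j x / (Real.sqrt (s j) * Real.sqrt n) * (Real.sqrt (s j) * Real.sqrt n * v j y)
        = w j x * v j y := by
      intro j
      by_cases hj : s j = 0
      · rw [hw0 j hj x]; simp
      · have : 0 < Real.sqrt (s j) := Real.sqrt_pos.mpr (lt_of_le_of_ne (hs0 j) (Ne.symm hj))
        field_simp
    simp only [e1]
    simp only [hwdef, Finset.sum_mul]
    rw [Finset.sum_comm]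
    have : ∀ z, ∑ j, M x z * v j z * v j y = M x z * (if z = y then 1 else 0) := by
      intro z
      rw [← hv2 z y, Finset.mul_sum]
      refine Finset.sum_congr rfl fun j _ => ?_
      ring
    simp only [this]
    simp
  · intro i j
    have e1 : ∑ x, w i x / (Real.sqrt (s i) * Real.sqrt n) * (w j x / (Real.sqrt (s j) * Real.sqrt n))
        = (∑ x, w i x * w j x) / ((Real.sqrt (s i) * Real.sqrt n) * (Real.sqrt (s j) * Real.sqrt n)) := by
      rw [Finset.sum_div]
      refine Finset.sum_congr rfl fun x _ => ?_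
      rw [div_mul_div_comm]
    rw [e1, hw i j]
    by_cases hij : i = j
    · subst hij
      simp only [if_true]
      by_cases hj : s i = 0
      · rw [(hszero i).mp hj]; simp [hj]
      · have h1 : 0 < s i := lt_of_le_of_ne (hs0 i) (Ne.symm hj)
        have h2 : Real.sqrt (s i) * Real.sqrt (s i) = s i := Real.mul_self_sqrt h1.le
        have h3 : Real.sqrt (s i) * Real.sqrt n * (Real.sqrt (s i) * Real.sqrt n) = s i * n := by
          calc Real.sqrt (s i) * Real.sqrt n * (Real.sqrt (s i) * Real.sqrt n)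
              = (Real.sqrt (s i) * Real.sqrt (s i)) * (Real.sqrt n * Real.sqrt n) := by ring
            _ = s i * n := by rw [h2, hb2]
        have h4 : σ i ^ 2 = s i * s i * (m * n) := by
          rw [hsσ i]
          calc (Real.sqrt m * Real.sqrt n * s i) ^ 2
              = s i * s i * ((Real.sqrt m * Real.sqrt m) * (Real.sqrt n * Real.sqrt n)) := by ring
            _ = s i * s i * (m * n) := by rw [ha2, hb2]
        rw [h3, h4]
        field_simp
    · simp [hij]
  · intro i j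
    have e1 : ∑ y, Real.sqrt (s i) * Real.sqrt n * v i y * (Real.sqrt (s j) * Real.sqrt n * v j y)
        = (Real.sqrt (s i) * Real.sqrt (s j)) * (Real.sqrt n * Real.sqrt n) * ∑ y, v i y * v j y := by
      rw [Finset.mul_sum]
      refine Finset.sum_congr rfl fun x _ => ?_
      ring
    rw [e1, hv1 i j, hb2]
    by_cases hij : i = j
    · subst hij
      simp only [if_true]
      rw [Real.mul_self_sqrt (hs0 i), mul_one]
    · simp [hij]
  · intro j hj x
    show w j x / _ = 0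
    rw [hw0 j hj x]; simp
  · rw [← hrank]
    congr 1
    ext j
    simp only [Finset.mem_filter, Finset.mem_univ, true_and, Ne]
    rw [hszero j]

/-! ### No localisation -/

lemma nuc_add_le {m n : ℕ} {ι : Type*} [Fintype ι] (B M : Matrix (Fin m) (Fin n) ℝ)
    (p : ι → Fin m → ℝ) (q : ι → Fin n → ℝ)
    (hB : ∀ x y, B x y = ∑ i, p i x * q i y + M x y) :
    nuc B ≤ ∑ i, Real.sqrt (∑ x, p i x ^ 2) * Real.sqrt (∑ y, q i y ^ 2)
      + (M.rank : ℝ) * Real.sqrt (∑ x, ∑ y, M x y ^ 2) := by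
  obtain ⟨p', q', h1, h2⟩ := lowrank M
  have h3 := nuc_le B (Sum.elim p p') (Sum.elim q q')
    (by intro x y; rw [hB, h1, Fintype.sum_sum_type]; rfl)
  rw [Fintype.sum_sum_type] at h3
  simp only [Sum.elim_inl, Sum.elim_inr] at h3
  linarith

lemma nuc_rank_le {m n : ℕ} (M : Matrix (Fin m) (Fin n) ℝ) :
    nuc M ≤ (M.rank : ℝ) * Real.sqrt (∑ x, ∑ y, M x y ^ 2) := by
  obtain ⟨p', q', h1, h2⟩ := lowrank M
  exact (nuc_le M p' q' h1).trans h2

lemma cost_le {m n : ℕ} (hm : 0 < m) (hn : 0 < n) (s α β : Fin n → ℝ)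
    (p : Fin n → Fin m → ℝ) (q : Fin n → Fin n → ℝ)
    (hp : ∀ j, ∑ x, p j x ^ 2 = s j * m - α j) (hq : ∀ j, ∑ y, q j y ^ 2 = s j * n - β j) :
    ∑ j, Real.sqrt (∑ x, p j x ^ 2) * Real.sqrt (∑ y, q j y ^ 2)
      ≤ Real.sqrt m * Real.sqrt n * ∑ j, s j
        - (Real.sqrt n / Real.sqrt m * ∑ j, α j + Real.sqrt m / Real.sqrt n * ∑ j, β j) / 2 := by
  have hmr : (0 : ℝ) < m := by exact_mod_cast hm
  have hnr : (0 : ℝ) < n := by exact_mod_cast hn
  have ha : 0 < Real.sqrt m := Real.sqrt_pos.mpr hmr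
  have hb : 0 < Real.sqrt n := Real.sqrt_pos.mpr hnr
  have ha2 : Real.sqrt m * Real.sqrt m = m := Real.mul_self_sqrt hmr.le
  have hb2 : Real.sqrt n * Real.sqrt n = n := Real.mul_self_sqrt hnr.le
  have key : ∀ j, Real.sqrt (∑ x, p j x ^ 2) * Real.sqrt (∑ y, q j y ^ 2)
      ≤ Real.sqrt m * Real.sqrt n * s j
        - (Real.sqrt n / Real.sqrt m * α j + Real.sqrt m / Real.sqrt n * β j) / 2 := by
    intro j
    set a := Real.sqrt (m : ℝ) with hadef
    set b := Real.sqrt (n : ℝ) with hbdef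
    set P2 := ∑ x, p j x ^ 2 with hP2
    set Q2 := ∑ y, q j y ^ 2 with hQ2
    have hP0 : 0 ≤ P2 := Finset.sum_nonneg fun x _ => sq_nonneg _
    have hQ0 : 0 ≤ Q2 := Finset.sum_nonneg fun x _ => sq_nonneg _
    have e1 : Real.sqrt P2 ^ 2 = P2 := Real.sq_sqrt hP0
    have e2 : Real.sqrt Q2 ^ 2 = Q2 := Real.sq_sqrt hQ0
    have h1 : 2 * (a * b) * (Real.sqrt P2 * Real.sqrt Q2) ≤ b ^ 2 * P2 + a ^ 2 * Q2 := by
      have := sq_nonneg (b * Real.sqrt P2 - a * Real.sqrt Q2)
      nlinarith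
    have h2 : Real.sqrt P2 * Real.sqrt Q2 ≤ (b ^ 2 * P2 + a ^ 2 * Q2) / (2 * (a * b)) := by
      rw [le_div_iff₀ (by positivity)]
      linarith
    refine h2.trans (le_of_eq ?_)
    have hPj : P2 = s j * (a * a) - α j := by rw [ha2]; exact hp j
    have hQj : Q2 = s j * (b * b) - β j := by rw [hb2]; exact hq j
    rw [hPj, hQj]
    field_simp
    ring
  refine (Finset.sum_le_sum fun j _ => key j).trans (le_of_eq ?_)
  rw [Finset.sum_sub_distrib, ← Finset.mul_sum, ← Finset.sum_div, Finset.sum_add_distrib,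
    ← Finset.mul_sum, ← Finset.mul_sum]

lemma noloc {m n : ℕ} (hm : 0 < m) (hn : 0 < n) {A P Ahat : Matrix (Fin m) (Fin n) ℝ}
    (hmin : IsNucMin A P Ahat) {K : ℕ}
    (s α β : Fin n → ℝ) (hnuc : nuc Ahat = Real.sqrt m * Real.sqrt n * ∑ j, s j)
    (R : Fin m → Fin n → Prop) [∀ x y, Decidable (R x y)]
    (p : Fin n → Fin m → ℝ) (q : Fin n → Fin n → ℝ)
    (hpq : ∀ x y, ∑ j, p j x * q j y = if R x y then 0 else Ahat x y)
    (hp : ∀ j, ∑ x, p j x ^ 2 = s j * m - α j) (hq : ∀ j, ∑ y, q j y ^ 2 = s j * n - β j)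
    (M : Matrix (Fin m) (Fin n) ℝ) (hM : ∀ x y, M x y = if R x y then A x y else 0)
    (hMr : M.rank ≤ K) {E : ℝ} (hE : Real.sqrt (∑ x, ∑ y, M x y ^ 2) ≤ E) :
    (Real.sqrt n / Real.sqrt m * ∑ j, α j + Real.sqrt m / Real.sqrt n * ∑ j, β j) / 2 ≤ K * E := by
  set B : Matrix (Fin m) (Fin n) ℝ := fun x y => if R x y then A x y else Ahat x y with hBdef
  have hBP : B ⊙ P = A ⊙ P := by
    ext x y
    have h := congrFun (congrFun hmin.1 x) y
    simp only [Matrix.hadamard_apply] at h ⊢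
    simp only [hBdef]
    split_ifs
    · rfl
    · exact h
  have h1 := hmin.2 B hBP
  have h2 := nuc_add_le B M p q (by
    intro x y
    rw [hpq, hM]
    simp only [hBdef]
    split_ifs <;> simp)
  have h3 := cost_le hm hn s α β p q hp hq
  have h4 : (M.rank : ℝ) * Real.sqrt (∑ x, ∑ y, M x y ^ 2) ≤ K * E := by
    apply mul_le_mul _ hE (Real.sqrt_nonneg _) (Nat.cast_nonneg _)
    exact_mod_cast hMr
  linarith

lemma noloc_rows {m n : ℕ} (hm : 0 < m) (hn : 0 < n) {A P Ahat : Matrix (Fin m) (Fin n) ℝ}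
    (hmin : IsNucMin A P Ahat) {K : ℕ} {L : ℝ} (hL : 0 ≤ L) (hrank : A.rank ≤ K)
    (hA : ∀ i j, |A i j| ≤ L)
    (X : Fin n → Fin m → ℝ) (Y : Fin n → Fin n → ℝ) (s : Fin n → ℝ)
    (hnuc : nuc Ahat = Real.sqrt m * Real.sqrt n * ∑ j, s j)
    (hXY : ∀ x y, Ahat x y = ∑ j, X j x * Y j y)
    (hX : ∀ i j, ∑ x, X i x * X j x = if i = j then s j * m else 0)
    (hY : ∀ i j, ∑ y, Y i y * Y j y = if i = j then s j * n else 0)
    (S : Finset (Fin m)) :
    ∑ x ∈ S, ∑ j, X j x ^ 2 ≤ 2 * (K * L) * (Real.sqrt S.card * Real.sqrt m) := by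
  classical
  have hmr : (0 : ℝ) < m := by exact_mod_cast hm
  have hnr : (0 : ℝ) < n := by exact_mod_cast hn
  have ha : 0 < Real.sqrt m := Real.sqrt_pos.mpr hmr
  have hb : 0 < Real.sqrt n := Real.sqrt_pos.mpr hnr
  have h := noloc hm hn hmin (K := K) s (fun j => ∑ x ∈ S, X j x ^ 2) (fun _ => 0) hnuc
    (fun x _ => x ∈ S) (fun j x => if x ∈ S then 0 else X j x) Y
    (by
      intro x y
      by_cases hx : x ∈ S
      · simp [hx]
      · simp [hx, hXY])
    (by
      intro j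
      have h1 := hX j j
      simp only [if_true] at h1
      have h2 : ∑ x, X j x * X j x = ∑ x ∈ S, X j x ^ 2 + ∑ x, (if x ∈ S then 0 else X j x) ^ 2 := by
        have : ∀ x, X j x * X j x = (if x ∈ S then X j x ^ 2 else 0)
            + (if x ∈ S then 0 else X j x) ^ 2 := by
          intro x; split_ifs <;> ring
        simp only [this, Finset.sum_add_distrib]
        congr 1
        rw [← Finset.sum_filter]
        congr 1
        ext x; simp
      linarith)
    (by
      intro j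
      have h1 := hY j j
      simp only [if_true] at h1
      rw [sub_zero, ← h1]
      exact Finset.sum_congr rfl fun y _ => by ring)
    (fun x y => if x ∈ S then A x y else 0) (fun x y => rfl)
    (by
      have : (fun x y => if x ∈ S then A x y else 0 : Matrix (Fin m) (Fin n) ℝ)
          = Matrix.diagonal (fun x => if x ∈ S then (1 : ℝ) else 0) * A := by
        ext x y
        rw [Matrix.diagonal_mul]
        split_ifs <;> simp
      rw [this]
      exact (Matrix.rank_mul_le_right _ _).trans hrank)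
    (E := L * (Real.sqrt S.card * Real.sqrt n))
    (by
      rw [show L * (Real.sqrt S.card * Real.sqrt n) = Real.sqrt (L ^ 2 * (S.card * n)) by
        rw [Real.sqrt_mul (sq_nonneg L), Real.sqrt_sq hL, Real.sqrt_mul (Nat.cast_nonneg _)]]
      apply Real.sqrt_le_sqrt
      have h1 : ∀ x, ∑ y, (if x ∈ S then A x y else 0) ^ 2 ≤ if x ∈ S then n * L ^ 2 else 0 := by
        intro x
        by_cases hx : x ∈ S
        · simp only [hx, if_true]
          calc ∑ y, A x y ^ 2 ≤ ∑ _y : Fin n, L ^ 2 := by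
                refine Finset.sum_le_sum fun y _ => ?_
                exact sq_le_sq' (by linarith [(abs_le.mp (hA x y)).1]) (abs_le.mp (hA x y)).2
            _ = n * L ^ 2 := by simp
        · simp [hx]
      refine (Finset.sum_le_sum fun x _ => h1 x).trans ?_
      rw [← Finset.sum_filter]
      simp only [Finset.sum_const, nsmul_eq_mul]
      have : (Finset.univ.filter (fun x => x ∈ S)) = S := by ext x; simp
      rw [this]
      apply le_of_eq; ring)
  simp only [Finset.sum_const_zero, mul_zero, add_zero] at h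
  rw [Finset.sum_comm]
  have h5 : Real.sqrt n / Real.sqrt m * ∑ j, ∑ x ∈ S, X j x ^ 2
      ≤ 2 * (K * (L * (Real.sqrt S.card * Real.sqrt n))) := by linarith
  rw [div_mul_eq_mul_div, div_le_iff₀ ha] at h5
  have h6 : Real.sqrt n * ∑ j, ∑ x ∈ S, X j x ^ 2
      ≤ Real.sqrt n * (2 * (K * L) * (Real.sqrt S.card * Real.sqrt m)) := by
    refine h5.trans (le_of_eq ?_)
    ring
  exact le_of_mul_le_mul_left h6 hb

lemma noloc_cols {m n : ℕ} (hm : 0 < m) (hn : 0 < n) {A P Ahat : Matrix (Fin m) (Fin n) ℝ}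
    (hmin : IsNucMin A P Ahat) {K : ℕ} {L : ℝ} (hL : 0 ≤ L) (hrank : A.rank ≤ K)
    (hA : ∀ i j, |A i j| ≤ L)
    (X : Fin n → Fin m → ℝ) (Y : Fin n → Fin n → ℝ) (s : Fin n → ℝ)
    (hnuc : nuc Ahat = Real.sqrt m * Real.sqrt n * ∑ j, s j)
    (hXY : ∀ x y, Ahat x y = ∑ j, X j x * Y j y)
    (hX : ∀ i j, ∑ x, X i x * X j x = if i = j then s j * m else 0)
    (hY : ∀ i j, ∑ y, Y i y * Y j y = if i = j then s j * n else 0)
    (S : Finset (Fin n)) :
    ∑ y ∈ S, ∑ j, Y j y ^ 2 ≤ 2 * (K * L) * (Real.sqrt S.card * Real.sqrt n) := by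
  classical
  have hmr : (0 : ℝ) < m := by exact_mod_cast hm
  have hnr : (0 : ℝ) < n := by exact_mod_cast hn
  have ha : 0 < Real.sqrt m := Real.sqrt_pos.mpr hmr
  have hb : 0 < Real.sqrt n := Real.sqrt_pos.mpr hnr
  have h := noloc hm hn hmin (K := K) s (fun _ => 0) (fun j => ∑ y ∈ S, Y j y ^ 2) hnuc
    (fun _ y => y ∈ S) X (fun j y => if y ∈ S then 0 else Y j y)
    (by
      intro x y
      by_cases hx : y ∈ S
      · simp [hx]
      · simp [hx, hXY])
    (by
      intro j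
      have h1 := hX j j
      simp only [if_true] at h1
      rw [sub_zero, ← h1]
      exact Finset.sum_congr rfl fun y _ => by ring)
    (by
      intro j
      have h1 := hY j j
      simp only [if_true] at h1
      have h2 : ∑ x, Y j x * Y j x = ∑ x ∈ S, Y j x ^ 2 + ∑ x, (if x ∈ S then 0 else Y j x) ^ 2 := by
        have : ∀ x, Y j x * Y j x = (if x ∈ S then Y j x ^ 2 else 0)
            + (if x ∈ S then 0 else Y j x) ^ 2 := by
          intro x; split_ifs <;> ring
        simp only [this, Finset.sum_add_distrib]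
        congr 1
        rw [← Finset.sum_filter]
        congr 1
        ext x; simp
      linarith)
    (fun x y => if y ∈ S then A x y else 0) (fun x y => rfl)
    (by
      have : (fun x y => if y ∈ S then A x y else 0 : Matrix (Fin m) (Fin n) ℝ)
          = A * Matrix.diagonal (fun y => if y ∈ S then (1 : ℝ) else 0) := by
        ext x y
        rw [Matrix.mul_diagonal]
        split_ifs <;> simp
      rw [this]
      exact (Matrix.rank_mul_le_left _ _).trans hrank)
    (E := L * (Real.sqrt S.card * Real.sqrt m))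
    (by
      rw [show L * (Real.sqrt S.card * Real.sqrt m) = Real.sqrt (L ^ 2 * (S.card * m)) by
        rw [Real.sqrt_mul (sq_nonneg L), Real.sqrt_sq hL, Real.sqrt_mul (Nat.cast_nonneg _)]]
      apply Real.sqrt_le_sqrt
      rw [Finset.sum_comm]
      have h1 : ∀ y, ∑ x, (if y ∈ S then A x y else 0) ^ 2 ≤ if y ∈ S then m * L ^ 2 else 0 := by
        intro y
        by_cases hx : y ∈ S
        · simp only [hx, if_true]
          calc ∑ x, A x y ^ 2 ≤ ∑ _x : Fin m, L ^ 2 := by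
                refine Finset.sum_le_sum fun x _ => ?_
                exact sq_le_sq' (by linarith [(abs_le.mp (hA x y)).1]) (abs_le.mp (hA x y)).2
            _ = m * L ^ 2 := by simp
        · simp [hx]
      refine (Finset.sum_le_sum fun x _ => h1 x).trans ?_
      rw [← Finset.sum_filter]
      simp only [Finset.sum_const, nsmul_eq_mul]
      have : (Finset.univ.filter (fun x => x ∈ S)) = S := by ext x; simp
      rw [this]
      apply le_of_eq; ring)
  simp only [Finset.sum_const_zero, mul_zero, zero_add] at h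
  rw [Finset.sum_comm]
  have h5 : Real.sqrt m / Real.sqrt n * ∑ j, ∑ x ∈ S, Y j x ^ 2
      ≤ 2 * (K * (L * (Real.sqrt S.card * Real.sqrt m))) := by linarith
  rw [div_mul_eq_mul_div, div_le_iff₀ hb] at h5
  have h6 : Real.sqrt m * ∑ j, ∑ x ∈ S, Y j x ^ 2
      ≤ Real.sqrt m * (2 * (K * L) * (Real.sqrt S.card * Real.sqrt n)) := by
    refine h5.trans (le_of_eq ?_)
    ring
  exact le_of_mul_le_mul_left h6 ha

/-! ### The combinatorial core -/

lemma markov_sq {κ : Type*} [Fintype κ] (S : Finset κ) (f : κ → ℝ) {l E : ℝ} (hl : 0 < l)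
    (hE : ∑ z, f z ^ 2 ≤ E) (hS : ∀ z ∈ S, l ≤ |f z|) : (S.card : ℝ) ≤ E / l ^ 2 := by
  rw [le_div_iff₀ (by positivity)]
  calc (S.card : ℝ) * l ^ 2 = ∑ _z ∈ S, l ^ 2 := by simp
    _ ≤ ∑ z ∈ S, f z ^ 2 := by
        refine Finset.sum_le_sum fun z hz => ?_
        rw [← sq_abs (f z)]
        exact pow_le_pow_left₀ hl.le (hS z hz) 2
    _ ≤ ∑ z, f z ^ 2 := Finset.sum_le_sum_of_subset_of_nonneg (Finset.subset_univ S)
        fun z _ _ => sq_nonneg _
    _ ≤ E := hE

lemma core {ι : Type*} [Fintype ι] [DecidableEq ι] {m n : ℕ} (hm : 0 < m) (hn : 0 < n)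
    (Hd : Finset ι) (D : ℕ) (hD : Hd.card ≤ D) (U : ι → Fin m → ℝ) (V : ι → Fin n → ℝ)
    (mid tail H : Fin m → Fin n → ℝ)
    (hH : ∀ x y, H x y = ∑ i ∈ Hd, U i x * V i y + mid x y + tail x y)
    (Pr : Fin m → Fin n → Prop) (hPr : ∀ x y, Pr x y → H x y = 0)
    (G : Finset (Fin m)) (G' : Finset (Fin n))
    {B η a t θ ρ : ℝ} {q : ℕ} (hB : 0 < B) (hη : 0 < η) (ha : 0 < a) (hρ : 0 < ρ)
    (hU : ∀ x ∈ G, ∀ i ∈ Hd, |U i x| ≤ B) (hV : ∀ y ∈ G', ∀ i ∈ Hd, |V i y| ≤ B)
    (hmid : ∀ x ∈ G, ∀ y ∈ G', |mid x y| ≤ η / 16)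
    (htail : ∑ x, ∑ y, tail x y ^ 2 ≤ t * (m * n))
    (W : Finset (Fin m × Fin n)) (hW : ∀ z ∈ W, z.1 ∈ G ∧ z.2 ∈ G' ∧ η ≤ |H z.1 z.2|)
    (hcount : a * (m * n) ≤ (W.card : ℝ))
    (hq : B / ρ ≤ q) (hρD : 2 * B * ρ * D ≤ η / 8)
    (ht1 : 4 * t / η ^ 2 ≤ a / 2)
    (hθ : ∀ (S : Finset (Fin m)) (T : Finset (Fin n)),
       a / (2 * ((2 * q + 1 : ℕ) : ℝ) ^ (2 * D)) * (m * n) ≤ S.card * T.card →
       ∃ Z : Finset (Fin m × Fin n), (∀ z ∈ Z, z.1 ∈ S ∧ z.2 ∈ T ∧ Pr z.1 z.2) ∧
         θ * (m * n) ≤ (Z.card : ℝ))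
    (hθ2 : 16 * t / η ^ 2 < θ) : False := by
  classical
  have hmr : (0 : ℝ) < m := by exact_mod_cast hm
  have hnr : (0 : ℝ) < n := by exact_mod_cast hn
  have hmn : (0 : ℝ) < m * n := mul_pos hmr hnr
  have htail' : ∑ z : Fin m × Fin n, tail z.1 z.2 ^ 2 ≤ t * (m * n) := by
    rw [Fintype.sum_prod_type]; exact htail
  -- cells
  set cell : Fin m → ι → ℤ := fun x i => if i ∈ Hd then ⌊U i x / ρ⌋ else 0 with hcell
  set cell' : Fin n → ι → ℤ := fun y i => if i ∈ Hd then ⌊V i y / ρ⌋ else 0 with hcell'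
  set Q : Finset (ι → ℤ) :=
    Fintype.piFinset (fun i => if i ∈ Hd then Finset.Icc (-(q : ℤ)) q else {0}) with hQ
  have hQcard : Q.card = (2 * q + 1) ^ Hd.card := by
    rw [hQ, Fintype.card_piFinset]
    have : ∀ i, (if i ∈ Hd then Finset.Icc (-(q : ℤ)) q else {0}).card
        = if i ∈ Hd then (2 * q + 1) else 1 := by
      intro i
      split_ifs
      · rw [Int.card_Icc]; omega
      · simp
    simp only [this]
    rw [Finset.prod_ite_mem, Finset.univ_inter, Finset.prod_const]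
  have hfl : ∀ u : ℝ, |u| ≤ B → ⌊u / ρ⌋ ∈ Finset.Icc (-(q : ℤ)) q := by
    intro u hu
    have h1 : |u / ρ| ≤ q := by
      rw [abs_div, abs_of_pos hρ]
      exact (div_le_div_of_nonneg_right hu hρ.le).trans hq
    have h2 := abs_le.mp h1
    rw [Finset.mem_Icc]
    constructor
    · rw [Int.le_floor]; push_cast; exact h2.1
    · have : (⌊u / ρ⌋ : ℝ) ≤ (q : ℝ) := (Int.floor_le _).trans h2.2
      exact_mod_cast this
  have hcQ : ∀ x ∈ G, cell x ∈ Q := by
    intro x hx
    rw [hQ, Fintype.mem_piFinset]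
    intro i
    by_cases hi : i ∈ Hd
    · simp only [hcell, hi, if_true]; exact hfl _ (hU x hx i hi)
    · simp only [hcell, hi, if_false]; simp
  have hcQ' : ∀ y ∈ G', cell' y ∈ Q := by
    intro y hy
    rw [hQ, Fintype.mem_piFinset]
    intro i
    by_cases hi : i ∈ Hd
    · simp only [hcell', hi, if_true]; exact hfl _ (hV y hy i hi)
    · simp only [hcell', hi, if_false]; simp
  have hclose : ∀ u u' : ℝ, ⌊u / ρ⌋ = ⌊u' / ρ⌋ → |u - u'| ≤ ρ := by
    intro u u' h
    have h1 := Int.abs_sub_lt_one_of_floor_eq_floor h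
    rw [← sub_div, abs_div, abs_of_pos hρ, div_lt_one hρ] at h1
    exact h1.le
  -- the good pairs
  set W' := W.filter (fun z => |tail z.1 z.2| < η / 2) with hW'
  have hWsplit : (W.card : ℝ) ≤ W'.card + (W.filter (fun z => ¬ |tail z.1 z.2| < η / 2)).card := by
    have := Finset.card_filter_add_card_filter_not (s := W) (fun z => |tail z.1 z.2| < η / 2)
    rw [← this]; push_cast; rfl
  have hbadtail : ((W.filter (fun z => ¬ |tail z.1 z.2| < η / 2)).card : ℝ)
      ≤ t * (m * n) / (η / 2) ^ 2 := by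
    refine markov_sq _ (fun z => tail z.1 z.2) (by positivity) htail' ?_
    intro z hz
    exact not_lt.mp (Finset.mem_filter.mp hz).2
  have hW'card : a / 2 * (m * n) ≤ W'.card := by
    have h1 : t * (m * n) / (η / 2) ^ 2 = (4 * t / η ^ 2) * (m * n) := by
      field_simp; ring
    have h2 : (4 * t / η ^ 2) * (m * n) ≤ a / 2 * (m * n) :=
      mul_le_mul_of_nonneg_right ht1 hmn.le
    rw [h1] at hbadtail
    linarith
  -- pigeonhole
  set N1 : ℝ := ((2 * q + 1 : ℕ) : ℝ) ^ (2 * D) with hN1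
  have hN1pos : 0 < N1 := by positivity
  set b : ℝ := a / (2 * N1) * (m * n) with hb
  have hbpos : 0 < b := by positivity
  have hQQ : (((Q ×ˢ Q).card : ℕ) : ℝ) ≤ N1 := by
    rw [Finset.card_product, hQcard, ← pow_add, hN1]
    push_cast
    apply pow_le_pow_right₀
    · have : (0 : ℝ) ≤ q := Nat.cast_nonneg q
      linarith
    · omega
  have hQne : (Q ×ˢ Q).Nonempty := by
    rw [← Finset.card_pos, Finset.card_product, hQcard]
    positivity
  obtain ⟨⟨z1, z2⟩, hz, hfib⟩ := Finset.exists_le_card_fiber_of_nsmul_le_card_of_maps_to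
    (s := W') (t := Q ×ˢ Q) (f := fun z => (cell z.1, cell' z.2)) (b := b)
    (by
      intro z hz
      have := hW z (Finset.mem_filter.mp hz).1
      rw [Finset.mem_product]
      exact ⟨hcQ _ this.1, hcQ' _ this.2.1⟩)
    hQne
    (by
      rw [nsmul_eq_mul]
      refine le_trans (mul_le_mul_of_nonneg_right hQQ hbpos.le) ?_
      refine le_trans (le_of_eq ?_) hW'card
      rw [hb]
      field_simp)
  set S := G.filter (fun x => cell x = z1) with hS
  set T := G'.filter (fun y => cell' y = z2) with hT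
  have hsub : (W'.filter (fun z => (cell z.1, cell' z.2) = (z1, z2))) ⊆ S ×ˢ T := by
    intro z hz
    rw [Finset.mem_filter] at hz
    have h1 := hW z (Finset.mem_filter.mp hz.1).1
    have h2 := Prod.mk.inj hz.2
    rw [Finset.mem_product, hS, hT, Finset.mem_filter, Finset.mem_filter]
    exact ⟨⟨h1.1, h2.1⟩, ⟨h1.2.1, h2.2⟩⟩
  have hST : b ≤ S.card * T.card := by
    refine hfib.trans ?_
    have := Finset.card_le_card hsub
    rw [Finset.card_product] at this
    exact_mod_cast this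
  have hfibpos : 0 < (W'.filter (fun z => (cell z.1, cell' z.2) = (z1, z2))).card := by
    have : (0 : ℝ) < (W'.filter (fun z => (cell z.1, cell' z.2) = (z1, z2))).card :=
      lt_of_lt_of_le hbpos hfib
    exact_mod_cast this
  obtain ⟨z0, hz0⟩ := Finset.card_pos.mp hfibpos
  obtain ⟨x0, y0⟩ := z0
  rw [Finset.mem_filter] at hz0
  have hz0W := Finset.mem_filter.mp hz0.1
  have hz0G := hW _ hz0W.1
  have hz0c := Prod.mk.inj hz0.2
  simp only at hz0W hz0G hz0c
  -- head variation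
  have hhead : ∀ x ∈ S, ∀ y ∈ T, |∑ i ∈ Hd, U i x * V i y - ∑ i ∈ Hd, U i x0 * V i y0| ≤ η / 8 := by
    intro x hx y hy
    rw [hS, Finset.mem_filter] at hx
    rw [hT, Finset.mem_filter] at hy
    rw [← Finset.sum_sub_distrib]
    refine (Finset.abs_sum_le_sum_abs _ _).trans ?_
    have h1 : ∀ i ∈ Hd, |U i x * V i y - U i x0 * V i y0| ≤ 2 * B * ρ := by
      intro i hi
      have c1 : |U i x - U i x0| ≤ ρ := by
        apply hclose
        have := congrFun (hx.2.trans hz0c.1.symm) i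
        simpa only [hcell, hi, if_true] using this
      have c2 : |V i y - V i y0| ≤ ρ := by
        apply hclose
        have := congrFun (hy.2.trans hz0c.2.symm) i
        simpa only [hcell', hi, if_true] using this
      have e : U i x * V i y - U i x0 * V i y0
          = (U i x - U i x0) * V i y + U i x0 * (V i y - V i y0) := by ring
      rw [e]
      refine (abs_add_le _ _).trans ?_
      rw [abs_mul, abs_mul]
      have b1 := hV y hy.1 i hi
      have b2 := hU x0 hz0G.1 i hi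
      have d1 : |U i x - U i x0| * |V i y| ≤ ρ * B := mul_le_mul c1 b1 (abs_nonneg _) hρ.le
      have d2 : |U i x0| * |V i y - V i y0| ≤ B * ρ := mul_le_mul b2 c2 (abs_nonneg _) hB.le
      linarith
    refine (Finset.sum_le_sum h1).trans ?_
    rw [Finset.sum_const, nsmul_eq_mul]
    refine le_trans ?_ hρD
    have : (Hd.card : ℝ) ≤ D := by exact_mod_cast hD
    calc (Hd.card : ℝ) * (2 * B * ρ) ≤ D * (2 * B * ρ) :=
          mul_le_mul_of_nonneg_right this (by positivity)
      _ = 2 * B * ρ * D := by ring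
  have hlow : ∀ x ∈ S, ∀ y ∈ T, η / 4 ≤ |∑ i ∈ Hd, U i x * V i y + mid x y| := by
    intro x hx y hy
    have h1 := hhead x hx y hy
    have hxG : x ∈ G := (Finset.mem_filter.mp hx).1
    have hyG : y ∈ G' := (Finset.mem_filter.mp hy).1
    have h2 := hmid x hxG y hyG
    have h3 := hmid x0 hz0G.1 y0 hz0G.2.1
    have h4 := hz0G.2.2
    rw [hH] at h4
    have h5 := hz0W.2
    set p1 := ∑ i ∈ Hd, U i x * V i y
    set p0 := ∑ i ∈ Hd, U i x0 * V i y0
    have h6 : |p0 + mid x0 y0 + tail x0 y0| ≤ |p1 + mid x y| + |p1 - p0| + |mid x y|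
        + |mid x0 y0| + |tail x0 y0| := by
      have e : p0 + mid x0 y0 + tail x0 y0
          = (p1 + mid x y) - (p1 - p0) - mid x y + mid x0 y0 + tail x0 y0 := by ring
      rw [e]
      refine (abs_add_le _ _).trans ?_
      gcongr
      refine (abs_add_le _ _).trans ?_
      gcongr
      refine (abs_sub _ _).trans ?_
      gcongr
      exact abs_sub _ _
    linarith
  obtain ⟨Z, hZ, hZcard⟩ := hθ S T hST
  have hZtail : (Z.card : ℝ) ≤ t * (m * n) / (η / 4) ^ 2 := by
    refine markov_sq Z (fun z => tail z.1 z.2) (by positivity) htail' ?_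
    intro z hz
    obtain ⟨a1, a2, a3⟩ := hZ z hz
    have h1 := hlow _ a1 _ a2
    have h2 := hPr _ _ a3
    rw [hH] at h2
    have h3 : ∑ i ∈ Hd, U i z.1 * V i z.2 + mid z.1 z.2 = - tail z.1 z.2 := by linarith
    rw [h3, abs_neg] at h1
    exact h1
  have h1 : t * (m * n) / (η / 4) ^ 2 = (16 * t / η ^ 2) * (m * n) := by
    field_simp; ring
  rw [h1] at hZtail
  have h2 : (16 * t / η ^ 2) * (m * n) < θ * (m * n) := mul_lt_mul_of_pos_right hθ2 hmn
  linarith

/-! ### One matrix -/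

lemma total_le {m n : ℕ} {A : Matrix (Fin m) (Fin n) ℝ} {K : ℕ} {L : ℝ} (hL : 0 ≤ L)
    (hrank : A.rank ≤ K) (hA : ∀ i j, |A i j| ≤ L) :
    nuc A ≤ K * L * (Real.sqrt m * Real.sqrt n) := by
  refine (nuc_rank_le A).trans ?_
  have h1 : Real.sqrt (∑ x, ∑ y, A x y ^ 2) ≤ L * (Real.sqrt m * Real.sqrt n) := by
    rw [show L * (Real.sqrt m * Real.sqrt n) = Real.sqrt (L ^ 2 * (m * n)) by
      rw [Real.sqrt_mul (sq_nonneg L), Real.sqrt_sq hL, Real.sqrt_mul (Nat.cast_nonneg _)]]
    apply Real.sqrt_le_sqrt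
    calc ∑ x, ∑ y, A x y ^ 2 ≤ ∑ _x : Fin m, ∑ _y : Fin n, L ^ 2 := by
          refine Finset.sum_le_sum fun x _ => Finset.sum_le_sum fun y _ => ?_
          exact sq_le_sq' (by linarith [(abs_le.mp (hA x y)).1]) (abs_le.mp (hA x y)).2
      _ = L ^ 2 * (m * n) := by simp; ring
  calc (A.rank : ℝ) * Real.sqrt (∑ x, ∑ y, A x y ^ 2)
      ≤ K * (L * (Real.sqrt m * Real.sqrt n)) :=
        mul_le_mul (by exact_mod_cast hrank) h1 (Real.sqrt_nonneg _) (Nat.cast_nonneg _)
    _ = K * L * (Real.sqrt m * Real.sqrt n) := by ring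

lemma scales {N : ℕ} (s : Fin N → ℝ) (hs : ∀ i, 0 ≤ s i) {C : ℝ} (hC : ∑ i, s i ≤ C)
    (t : ℕ → ℝ) (ht : ∀ j, t (j + 1) ≤ t j) (J : ℕ) (hJ : 0 < J) :
    ∃ j < J, ∑ i ∈ Finset.univ.filter (fun i => t (j + 1) < s i ∧ s i ≤ t j), s i ≤ C / J := by
  classical
  by_contra hcon
  push Not at hcon
  have hJr : (0 : ℝ) < J := by exact_mod_cast hJ
  have h1 : C < ∑ j ∈ Finset.range J,
      ∑ i ∈ Finset.univ.filter (fun i => t (j + 1) < s i ∧ s i ≤ t j), s i := by
    calc C = ∑ _j ∈ Finset.range J, C / J := by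
          rw [Finset.sum_const, Finset.card_range, nsmul_eq_mul]; field_simp
      _ < _ := by
          apply Finset.sum_lt_sum_of_nonempty
          · exact ⟨0, Finset.mem_range.mpr hJ⟩
          · intro j hj
            exact hcon j (Finset.mem_range.mp hj)
  have h2 : ∑ j ∈ Finset.range J,
      ∑ i ∈ Finset.univ.filter (fun i => t (j + 1) < s i ∧ s i ≤ t j), s i ≤ ∑ i, s i := by
    simp only [Finset.sum_filter]
    rw [Finset.sum_comm]
    refine Finset.sum_le_sum fun i _ => ?_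
    have e : ∀ j, (if t (j + 1) < s i ∧ s i ≤ t j then s i else 0)
        = s i * ((if t (j + 1) < s i then 1 else 0) - (if t j < s i then 1 else 0)) := by
      intro j
      by_cases h1 : t j < s i
      · have h2 : t (j + 1) < s i := lt_of_le_of_lt (ht j) h1
        simp [h1, h2]
      · by_cases h2 : t (j + 1) < s i
        · simp [h1, h2, not_lt.mp h1]
        · simp [h1, h2]
    simp only [e]
    rw [← Finset.mul_sum, Finset.sum_range_sub (fun j => if t j < s i then (1 : ℝ) else 0)]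
    have : (if t J < s i then (1 : ℝ) else 0) - (if t 0 < s i then 1 else 0) ≤ 1 := by
      split_ifs <;> norm_num
    calc s i * _ ≤ s i * 1 := mul_le_mul_of_nonneg_left this (hs i)
      _ = s i := mul_one _
  linarith

lemma par {N M : ℕ} (Y : Fin N → Fin M → ℝ) (s : Fin N → ℝ)
    (hY : ∀ i j, ∑ y, Y i y * Y j y = if i = j then s j * M else 0)
    (F : Finset (Fin N)) (c : Fin N → ℝ) :
    ∑ y, (∑ j ∈ F, c j * Y j y) ^ 2 = ∑ j ∈ F, c j ^ 2 * (s j * M) := by
  have e : ∀ y, (∑ j ∈ F, c j * Y j y) ^ 2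
      = ∑ i ∈ F, ∑ j ∈ F, c i * c j * (Y i y * Y j y) := by
    intro y
    rw [sq, Finset.sum_mul_sum]
    refine Finset.sum_congr rfl fun i _ => Finset.sum_congr rfl fun j _ => ?_
    ring
  simp only [e]
  rw [Finset.sum_comm]
  refine Finset.sum_congr rfl fun i hi => ?_
  rw [Finset.sum_comm]
  have e2 : ∀ j ∈ F, ∑ y, c i * c j * (Y i y * Y j y) = if i = j then c j ^ 2 * (s j * M) else 0 := by
    intro j _
    rw [← Finset.mul_sum, hY i j]
    split_ifs with h
    · subst h; ring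
    · simp
  rw [Finset.sum_congr rfl e2, Finset.sum_ite_eq, if_pos hi]

lemma markov1 {N : ℕ} (f : Fin N → ℝ) (hf : ∀ x, 0 ≤ f x) {l E b : ℝ} (hl : 0 < l)
    (hE : ∑ x, f x ≤ E * N) (hb : E / l ≤ b) :
    ((Finset.univ.filter (fun x => l < f x)).card : ℝ) ≤ b * N := by
  have h1 : ((Finset.univ.filter (fun x => l < f x)).card : ℝ) * l ≤ E * N := by
    calc ((Finset.univ.filter (fun x => l < f x)).card : ℝ) * l
        = ∑ _x ∈ Finset.univ.filter (fun x => l < f x), l := by simp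
      _ ≤ ∑ x ∈ Finset.univ.filter (fun x => l < f x), f x := by
          refine Finset.sum_le_sum fun x hx => ?_
          exact (Finset.mem_filter.mp hx).2.le
      _ ≤ ∑ x, f x := Finset.sum_le_sum_of_subset_of_nonneg (Finset.subset_univ _)
          fun x _ _ => hf x
      _ ≤ E * N := hE
  have h2 : ((Finset.univ.filter (fun x => l < f x)).card : ℝ) ≤ E * N / l := by
    rw [le_div_iff₀ hl]; exact h1
  refine h2.trans ?_
  calc E * N / l = E / l * N := by ring
    _ ≤ b * N := mul_le_mul_of_nonneg_right hb (Nat.cast_nonneg _)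

lemma bad_card {N : ℕ} (f g h : Fin N → ℝ) (hf : ∀ x, 0 ≤ f x) (hg : ∀ x, 0 ≤ g x)
    (hh : ∀ x, 0 ≤ h x) {l l' E E' b : ℝ} (hb0 : 0 ≤ b) (hl : 0 < l) (hl' : 0 < l')
    (hfE : ∑ x, f x ≤ E * N) (hgE : ∑ x, g x ≤ E * N) (hhE : ∑ x, h x ≤ E' * N)
    (hb : E / l ≤ b / 4) (hb' : E' / l' ≤ b / 4) :
    ((Finset.univ.filter (fun x => ¬ (f x ≤ l ∧ g x ≤ l ∧ h x ≤ l'))).card : ℝ) ≤ b * N := by
  classical
  have h1 := markov1 f hf hl hfE hb
  have h2 := markov1 g hg hl hgE hb
  have h3 := markov1 h hh hl' hhE hb'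
  have hsub : Finset.univ.filter (fun x => ¬ (f x ≤ l ∧ g x ≤ l ∧ h x ≤ l'))
      ⊆ (Finset.univ.filter (fun x => l < f x) ∪ Finset.univ.filter (fun x => l < g x))
        ∪ Finset.univ.filter (fun x => l' < h x) := by
    intro x hx
    simp only [Finset.mem_filter, Finset.mem_univ, true_and, Finset.mem_union] at hx ⊢
    by_contra hcon
    push Not at hcon
    exact hx ⟨hcon.1.1, hcon.1.2, hcon.2⟩
  have h4 : ((Finset.univ.filter (fun x => ¬ (f x ≤ l ∧ g x ≤ l ∧ h x ≤ l'))).card : ℝ)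
      ≤ (Finset.univ.filter (fun x => l < f x)).card + (Finset.univ.filter (fun x => l < g x)).card
        + (Finset.univ.filter (fun x => l' < h x)).card := by
    have := (Finset.card_le_card hsub).trans ((Finset.card_union_le _ _).trans
      (Nat.add_le_add_right (Finset.card_union_le _ _) _))
    exact_mod_cast this
  have : 0 ≤ b * N := mul_nonneg hb0 (Nat.cast_nonneg _)
  linarith

/-- mass of the bad rows -/
lemma mass_rows {N M : ℕ} (hN : 0 < N) {A Ah : Fin N → Fin M → ℝ} {C L b : ℝ}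
    (hC : 0 ≤ C) (hb : 0 ≤ b) (hA : ∀ i j, |A i j| ≤ L)
    {Q : ℕ} (X : Fin Q → Fin N → ℝ) (s : Fin Q → ℝ) (hsC : ∀ j, s j ≤ C)
    (hpar : ∀ x, ∑ y, Ah x y ^ 2 = ∑ j, X j x ^ 2 * (s j * M))
    (R : Finset (Fin N)) (hR : (R.card : ℝ) ≤ b * N)
    (hloc : ∑ x ∈ R, ∑ j, X j x ^ 2 ≤ 2 * C * (Real.sqrt R.card * Real.sqrt N)) :
    ∑ x ∈ R, ∑ y, (Ah x y - A x y) ^ 2 ≤ (4 * C ^ 2 * Real.sqrt b + 2 * L ^ 2 * b) * (N * M) := by
  have hNr : (0 : ℝ) < N := by exact_mod_cast hN
  have h1 : ∑ x ∈ R, ∑ y, Ah x y ^ 2 ≤ 2 * C ^ 2 * Real.sqrt b * (N * M) := by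
    have e1 : ∑ x ∈ R, ∑ y, Ah x y ^ 2 ≤ C * M * ∑ x ∈ R, ∑ j, X j x ^ 2 := by
      rw [Finset.mul_sum]
      refine Finset.sum_le_sum fun x _ => ?_
      rw [hpar, Finset.mul_sum]
      refine Finset.sum_le_sum fun j _ => ?_
      have : s j * M ≤ C * M := mul_le_mul_of_nonneg_right (hsC j) (Nat.cast_nonneg _)
      calc X j x ^ 2 * (s j * M) ≤ X j x ^ 2 * (C * M) :=
            mul_le_mul_of_nonneg_left this (sq_nonneg _)
        _ = C * M * X j x ^ 2 := by ring
    have e2 : Real.sqrt R.card ≤ Real.sqrt b * Real.sqrt N := by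
      rw [← Real.sqrt_mul hb]
      exact Real.sqrt_le_sqrt hR
    have e3 : Real.sqrt N * Real.sqrt N = (N : ℝ) := Real.mul_self_sqrt hNr.le
    calc ∑ x ∈ R, ∑ y, Ah x y ^ 2 ≤ C * M * ∑ x ∈ R, ∑ j, X j x ^ 2 := e1
      _ ≤ C * M * (2 * C * (Real.sqrt R.card * Real.sqrt N)) :=
          mul_le_mul_of_nonneg_left hloc (by positivity)
      _ ≤ C * M * (2 * C * ((Real.sqrt b * Real.sqrt N) * Real.sqrt N)) := by gcongr
      _ = 2 * C ^ 2 * Real.sqrt b * ((Real.sqrt N * Real.sqrt N) * M) := by ring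
      _ = 2 * C ^ 2 * Real.sqrt b * (N * M) := by rw [e3]
  have h2 : ∑ x ∈ R, ∑ y, A x y ^ 2 ≤ L ^ 2 * b * (N * M) := by
    calc ∑ x ∈ R, ∑ y, A x y ^ 2 ≤ ∑ _x ∈ R, ∑ _y : Fin M, L ^ 2 := by
          refine Finset.sum_le_sum fun x _ => Finset.sum_le_sum fun y _ => ?_
          exact sq_le_sq' (by linarith [(abs_le.mp (hA x y)).1]) (abs_le.mp (hA x y)).2
      _ = R.card * (M * L ^ 2) := by simp
      _ ≤ (b * N) * (M * L ^ 2) := mul_le_mul_of_nonneg_right hR (by positivity)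
      _ = L ^ 2 * b * (N * M) := by ring
  have h3 : ∑ x ∈ R, ∑ y, (Ah x y - A x y) ^ 2
      ≤ 2 * ∑ x ∈ R, ∑ y, Ah x y ^ 2 + 2 * ∑ x ∈ R, ∑ y, A x y ^ 2 := by
    rw [Finset.mul_sum, Finset.mul_sum, ← Finset.sum_add_distrib]
    refine Finset.sum_le_sum fun x _ => ?_
    rw [Finset.mul_sum, Finset.mul_sum, ← Finset.sum_add_distrib]
    refine Finset.sum_le_sum fun y _ => ?_
    nlinarith [sq_nonneg (Ah x y + A x y)]
  calc _ ≤ _ := h3
    _ ≤ 2 * (2 * C ^ 2 * Real.sqrt b * (N * M)) + 2 * (L ^ 2 * b * (N * M)) := by linarith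
    _ = _ := by ring

lemma assemble {m n : ℕ} (hm : 0 < m) (hn : 0 < n) {A P Ahat : Matrix (Fin m) (Fin n) ℝ}
    (hmin : IsNucMin A P Ahat) {K : ℕ} {L : ℝ} (hL : 0 < L)
    (hrank : A.rank ≤ K) (hA : ∀ i j, |A i j| ≤ L)
    {ε β B η a C : ℝ} {J : ℕ} (hε : 0 < ε) (hC : C = K * L) (hCpos : 0 < C) (hβ : 0 < β)
    (hβ1 : 8 * C ^ 2 * Real.sqrt β + 4 * L ^ 2 * β ≤ ε ^ 2 / 2)
    (hB : 0 < B) (hB1 : C / B ^ 2 ≤ β / 4) (hη : η = ε / 2) (ha : a = ε ^ 2 / (4 * (B ^ 2 + L) ^ 2))
    (hJ : 0 < J) (hJ1 : (C / J) / (η / 16) ≤ β / 4)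
    (t : ℕ → ℝ) (htpos : ∀ j, 0 < t j) (htanti : ∀ j, t (j + 1) ≤ t j)
    (Dd q : ℕ → ℕ) (ρ θ : ℕ → ℝ) (hρ : ∀ j, 0 < ρ j) (hD : ∀ j, C / t j + K ≤ Dd j)
    (hq : ∀ j, B / ρ j ≤ q j) (hρD : ∀ j, 2 * B * ρ j * Dd j ≤ η / 8)
    (ht1 : ∀ j, 4 * (t (j + 1) * C) / η ^ 2 ≤ a / 2)
    (hθ2 : ∀ j, 16 * (t (j + 1) * C) / η ^ 2 < θ j)
    (hθ : ∀ j < J, ∀ (S : Finset (Fin m)) (T : Finset (Fin n)),
       a / (2 * ((2 * q j + 1 : ℕ) : ℝ) ^ (2 * Dd j)) * (m * n) ≤ S.card * T.card →
       ∃ Z : Finset (Fin m × Fin n), (∀ z ∈ Z, z.1 ∈ S ∧ z.2 ∈ T ∧ P z.1 z.2 = 1) ∧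
         θ j * (m * n) ≤ (Z.card : ℝ)) :
    ∑ x, ∑ y, (Ahat x y - A x y) ^ 2 < ε ^ 2 * (m * n) := by
  classical
  by_contra hcon
  push Not at hcon
  have hmr : (0 : ℝ) < m := by exact_mod_cast hm
  have hnr : (0 : ℝ) < n := by exact_mod_cast hn
  have hmn : (0 : ℝ) < m * n := mul_pos hmr hnr
  have hsm : 0 < Real.sqrt m := Real.sqrt_pos.mpr hmr
  have hsn : 0 < Real.sqrt n := Real.sqrt_pos.mpr hnr
  have hηpos : 0 < η := by rw [hη]; positivity
  have hapos : 0 < a := by rw [ha]; positivity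
  obtain ⟨X, Y, s, hs0, hnuc, hXY, hX, hY, -, -⟩ := nsvd hm hn Ahat
  obtain ⟨XA, YA, sA, hsA0, hnucA, hXYA, hXA, hYA, hXA0, hcardA⟩ := nsvd hm hn A
  have hnA := total_le hL.le hrank hA
  have hle : nuc Ahat ≤ nuc A := hmin.2 A rfl
  have hsC : ∑ j, s j ≤ C := by
    have h1 : Real.sqrt m * Real.sqrt n * ∑ j, s j ≤ Real.sqrt m * Real.sqrt n * C := by
      rw [← hnuc, hC]; linarith
    exact le_of_mul_le_mul_left h1 (by positivity)
  have hsAC : ∑ j, sA j ≤ C := by
    have h1 : Real.sqrt m * Real.sqrt n * ∑ j, sA j ≤ Real.sqrt m * Real.sqrt n * C := by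
      rw [← hnucA, hC]; linarith
    exact le_of_mul_le_mul_left h1 (by positivity)
  have hsle : ∀ j, s j ≤ C := fun j =>
    (Finset.single_le_sum (fun i _ => hs0 i) (Finset.mem_univ j)).trans hsC
  obtain ⟨j, hjJ, hmidC⟩ := scales s hs0 hsC t htanti J hJ
  set Md := Finset.univ.filter (fun i => t (j + 1) < s i ∧ s i ≤ t j) with hMd
  set Tl := Finset.univ.filter (fun i => s i ≤ t (j + 1)) with hTl
  set Hd1 := Finset.univ.filter (fun i => t j < s i) with hHd1
  set Hd2 := Finset.univ.filter (fun i => sA i ≠ 0) with hHd2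
  -- sums of squares
  have sumX : ∀ F : Finset (Fin n), ∑ x, ∑ i ∈ F, X i x ^ 2 = (∑ i ∈ F, s i) * m := by
    intro F
    rw [Finset.sum_comm, Finset.sum_mul]
    refine Finset.sum_congr rfl fun i _ => ?_
    have := hX i i
    simp only [if_true] at this
    rw [← this]
    exact Finset.sum_congr rfl fun x _ => by ring
  have sumY : ∀ F : Finset (Fin n), ∑ y, ∑ i ∈ F, Y i y ^ 2 = (∑ i ∈ F, s i) * n := by
    intro F
    rw [Finset.sum_comm, Finset.sum_mul]
    refine Finset.sum_congr rfl fun i _ => ?_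
    have := hY i i
    simp only [if_true] at this
    rw [← this]
    exact Finset.sum_congr rfl fun x _ => by ring
  have sumXA : ∑ x, ∑ i, XA i x ^ 2 = (∑ i, sA i) * m := by
    rw [Finset.sum_comm, Finset.sum_mul]
    refine Finset.sum_congr rfl fun i _ => ?_
    have := hXA i i
    simp only [if_true] at this
    rw [← this]
    exact Finset.sum_congr rfl fun x _ => by ring
  have sumYA : ∑ y, ∑ i, YA i y ^ 2 = (∑ i, sA i) * n := by
    rw [Finset.sum_comm, Finset.sum_mul]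
    refine Finset.sum_congr rfl fun i _ => ?_
    have := hYA i i
    simp only [if_true] at this
    rw [← this]
    exact Finset.sum_congr rfl fun x _ => by ring
  -- good and bad rows and columns
  set G := Finset.univ.filter (fun x => ∑ i, X i x ^ 2 ≤ B ^ 2 ∧ ∑ i, XA i x ^ 2 ≤ B ^ 2 ∧
    ∑ i ∈ Md, X i x ^ 2 ≤ η / 16) with hG
  set G' := Finset.univ.filter (fun y => ∑ i, Y i y ^ 2 ≤ B ^ 2 ∧ ∑ i, YA i y ^ 2 ≤ B ^ 2 ∧
    ∑ i ∈ Md, Y i y ^ 2 ≤ η / 16) with hG'
  set R := Finset.univ.filter (fun x => ¬ (∑ i, X i x ^ 2 ≤ B ^ 2 ∧ ∑ i, XA i x ^ 2 ≤ B ^ 2 ∧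
    ∑ i ∈ Md, X i x ^ 2 ≤ η / 16)) with hR
  set R' := Finset.univ.filter (fun y => ¬ (∑ i, Y i y ^ 2 ≤ B ^ 2 ∧ ∑ i, YA i y ^ 2 ≤ B ^ 2 ∧
    ∑ i ∈ Md, Y i y ^ 2 ≤ η / 16)) with hR'
  have hRcard : (R.card : ℝ) ≤ β * m :=
    bad_card (fun x => ∑ i, X i x ^ 2) (fun x => ∑ i, XA i x ^ 2) (fun x => ∑ i ∈ Md, X i x ^ 2)
      (fun x => Finset.sum_nonneg fun i _ => sq_nonneg _)
      (fun x => Finset.sum_nonneg fun i _ => sq_nonneg _)
      (fun x => Finset.sum_nonneg fun i _ => sq_nonneg _)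
      hβ.le (by positivity) (by positivity)
      (by rw [sumX Finset.univ]; exact mul_le_mul_of_nonneg_right hsC hmr.le)
      (by rw [sumXA]; exact mul_le_mul_of_nonneg_right hsAC hmr.le)
      (by rw [sumX Md]; exact mul_le_mul_of_nonneg_right hmidC hmr.le)
      hB1 hJ1
  have hRcard' : (R'.card : ℝ) ≤ β * n :=
    bad_card (fun x => ∑ i, Y i x ^ 2) (fun x => ∑ i, YA i x ^ 2) (fun x => ∑ i ∈ Md, Y i x ^ 2)
      (fun x => Finset.sum_nonneg fun i _ => sq_nonneg _)
      (fun x => Finset.sum_nonneg fun i _ => sq_nonneg _)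
      (fun x => Finset.sum_nonneg fun i _ => sq_nonneg _)
      hβ.le (by positivity) (by positivity)
      (by rw [sumY Finset.univ]; exact mul_le_mul_of_nonneg_right hsC hnr.le)
      (by rw [sumYA]; exact mul_le_mul_of_nonneg_right hsAC hnr.le)
      (by rw [sumY Md]; exact mul_le_mul_of_nonneg_right hmidC hnr.le)
      hB1 hJ1
  have hlocR := noloc_rows hm hn hmin hL.le hrank hA X Y s hnuc hXY hX hY R
  have hlocR' := noloc_cols hm hn hmin hL.le hrank hA X Y s hnuc hXY hX hY R'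
  rw [← hC] at hlocR hlocR'
  have hmassR := mass_rows hm hCpos.le hβ.le (A := A) (Ah := Ahat) hA X s hsle
    (by
      intro x
      have := par Y s hY Finset.univ (fun j => X j x)
      rw [← this]
      exact Finset.sum_congr rfl fun y _ => by rw [hXY])
    R hRcard hlocR
  have hmassR' := mass_rows hn hCpos.le hβ.le (A := fun y x => A x y) (Ah := fun y x => Ahat x y)
    (fun i j => hA j i) Y s hsle
    (by
      intro y
      have := par X s hX Finset.univ (fun j => Y j y)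
      rw [← this]
      refine Finset.sum_congr rfl fun x _ => ?_
      rw [hXY]
      congr 1
      exact Finset.sum_congr rfl fun i _ => mul_comm _ _)
    R' hRcard' hlocR'
  rw [Finset.sum_comm] at hmassR'
  -- the function H
  set H : Fin m → Fin n → ℝ := fun x y => Ahat x y - A x y with hHdef
  set W := (G ×ˢ G').filter (fun z => η ≤ |H z.1 z.2|) with hWdef
  have hHbound : ∀ x ∈ G, ∀ y ∈ G', |H x y| ≤ B ^ 2 + L := by
    intro x hx y hy
    have h1 := (Finset.mem_filter.mp hx).2.1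
    have h2 := (Finset.mem_filter.mp hy).2.1
    have h3 : |Ahat x y| ≤ B ^ 2 := by
      rw [hXY]
      apply abs_le_of_sq_le_sq _ (by positivity)
      refine (Finset.sum_mul_sq_le_sq_mul_sq _ _ _).trans ?_
      calc (∑ i, X i x ^ 2) * (∑ i, Y i y ^ 2) ≤ B ^ 2 * B ^ 2 :=
            mul_le_mul h1 h2 (Finset.sum_nonneg fun i _ => sq_nonneg _) (by positivity)
        _ = (B ^ 2) ^ 2 := by ring
    calc |H x y| ≤ |Ahat x y| + |A x y| := abs_sub _ _
      _ ≤ B ^ 2 + L := add_le_add h3 (hA x y)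
  have hcount : a * (m * n) ≤ (W.card : ℝ) := by
    have e1 : ∑ x, ∑ y, H x y ^ 2 ≤ ∑ x, ∑ y, (if x ∈ G ∧ y ∈ G' then H x y ^ 2 else 0)
        + ∑ x ∈ R, ∑ y, H x y ^ 2 + ∑ x, ∑ y ∈ R', H x y ^ 2 := by
      have f1 : ∑ x ∈ R, ∑ y, H x y ^ 2 = ∑ x, ∑ y, (if x ∈ R then H x y ^ 2 else 0) := by
        rw [← Finset.sum_filter_add_sum_filter_not Finset.univ (fun x => x ∈ R)
          (fun x => ∑ y, (if x ∈ R then H x y ^ 2 else 0))]
        have g1 : Finset.univ.filter (fun x => x ∈ R) = R := by ext x; simp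
        rw [g1]
        have g2 : ∑ x ∈ Finset.univ.filter (fun x => ¬ x ∈ R), ∑ y,
            (if x ∈ R then H x y ^ 2 else 0) = 0 := by
          refine Finset.sum_eq_zero fun x hx => ?_
          have := (Finset.mem_filter.mp hx).2
          simp [this]
        rw [g2, add_zero]
        refine Finset.sum_congr rfl fun x hx => ?_
        simp [hx]
      have f2 : ∑ x, ∑ y ∈ R', H x y ^ 2 = ∑ x, ∑ y, (if y ∈ R' then H x y ^ 2 else 0) := by
        refine Finset.sum_congr rfl fun x _ => ?_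
        rw [← Finset.sum_filter]
        congr 1
        ext y; simp
      rw [f1, f2, ← Finset.sum_add_distrib, ← Finset.sum_add_distrib]
      refine Finset.sum_le_sum fun x _ => ?_
      rw [← Finset.sum_add_distrib, ← Finset.sum_add_distrib]
      refine Finset.sum_le_sum fun y _ => ?_
      have hx : x ∈ G ∨ x ∈ R := by
        rw [hG, hR, Finset.mem_filter, Finset.mem_filter]
        by_cases h : (∑ i, X i x ^ 2 ≤ B ^ 2 ∧ ∑ i, XA i x ^ 2 ≤ B ^ 2 ∧
          ∑ i ∈ Md, X i x ^ 2 ≤ η / 16)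
        · exact Or.inl ⟨Finset.mem_univ _, h⟩
        · exact Or.inr ⟨Finset.mem_univ _, h⟩
      have hy : y ∈ G' ∨ y ∈ R' := by
        rw [hG', hR', Finset.mem_filter, Finset.mem_filter]
        by_cases h : (∑ i, Y i y ^ 2 ≤ B ^ 2 ∧ ∑ i, YA i y ^ 2 ≤ B ^ 2 ∧
          ∑ i ∈ Md, Y i y ^ 2 ≤ η / 16)
        · exact Or.inl ⟨Finset.mem_univ _, h⟩
        · exact Or.inr ⟨Finset.mem_univ _, h⟩
      have hsq := sq_nonneg (H x y)
      rcases hx with hx | hx
      · rcases hy with hy | hy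
        · have : x ∈ G ∧ y ∈ G' := ⟨hx, hy⟩
          rw [if_pos this]
          split_ifs <;> linarith
        · rw [if_pos hy]
          split_ifs <;> linarith
      · rw [if_pos hx]
        split_ifs <;> linarith
    have e2 : ∑ x, ∑ y, (if x ∈ G ∧ y ∈ G' then H x y ^ 2 else 0)
        ≤ (B ^ 2 + L) ^ 2 * W.card + η ^ 2 * (m * n) := by
      have f1 : ∀ x y, (if x ∈ G ∧ y ∈ G' then H x y ^ 2 else 0)
          ≤ (if (x, y) ∈ W then (B ^ 2 + L) ^ 2 else 0) + η ^ 2 := by
        intro x y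
        by_cases hxy : x ∈ G ∧ y ∈ G'
        · rw [if_pos hxy]
          by_cases hbig : η ≤ |H x y|
          · have : (x, y) ∈ W := by
              rw [hWdef, Finset.mem_filter, Finset.mem_product]
              exact ⟨hxy, hbig⟩
            rw [if_pos this]
            have h1 := hHbound x hxy.1 y hxy.2
            have h2 : H x y ^ 2 ≤ (B ^ 2 + L) ^ 2 := by
              rw [← sq_abs (H x y)]
              exact pow_le_pow_left₀ (abs_nonneg _) h1 2
            have := sq_nonneg η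
            linarith
          · have h1 : H x y ^ 2 ≤ η ^ 2 := by
              rw [← sq_abs (H x y)]
              exact pow_le_pow_left₀ (abs_nonneg _) (not_le.mp hbig).le 2
            have : (0 : ℝ) ≤ (if (x, y) ∈ W then (B ^ 2 + L) ^ 2 else 0) := by
              split_ifs <;> positivity
            linarith
        · rw [if_neg hxy]
          have : (0 : ℝ) ≤ (if (x, y) ∈ W then (B ^ 2 + L) ^ 2 else 0) := by
            split_ifs <;> positivity
          have := sq_nonneg η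
          linarith
      refine (Finset.sum_le_sum fun x _ => Finset.sum_le_sum fun y _ => f1 x y).trans ?_
      simp only [Finset.sum_add_distrib]
      apply le_of_eq
      congr 1
      · rw [← Fintype.sum_prod_type' (f := fun x y => if (x, y) ∈ W then (B ^ 2 + L) ^ 2 else (0:ℝ))]
        rw [← Finset.sum_filter]
        simp only [Prod.mk.eta]
        rw [Finset.sum_const, nsmul_eq_mul, mul_comm]
        congr 3
        ext z; simp
      · simp
        ring
    have e3 : ε ^ 2 * (m * n) ≤ (B ^ 2 + L) ^ 2 * W.card + η ^ 2 * (m * n)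
        + (8 * C ^ 2 * Real.sqrt β + 4 * L ^ 2 * β) * (m * n) := by
      have g1 := hmassR
      have g2 := hmassR'
      have g3 : (4 * C ^ 2 * Real.sqrt β + 2 * L ^ 2 * β) * ((n : ℝ) * m)
          = (4 * C ^ 2 * Real.sqrt β + 2 * L ^ 2 * β) * (m * n) := by ring
      rw [g3] at g2
      have g4 : ε ^ 2 * (m * n) ≤ ∑ x, ∑ y, H x y ^ 2 := hcon
      have g5 : ∑ x ∈ R, ∑ y, H x y ^ 2 ≤ (4 * C ^ 2 * Real.sqrt β + 2 * L ^ 2 * β) * (m * n) := g1
      have g6 : ∑ x, ∑ y ∈ R', H x y ^ 2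
          ≤ (4 * C ^ 2 * Real.sqrt β + 2 * L ^ 2 * β) * (m * n) := g2
      linarith
    have e4 : (8 * C ^ 2 * Real.sqrt β + 4 * L ^ 2 * β) * (m * n) ≤ ε ^ 2 / 2 * (m * n) :=
      mul_le_mul_of_nonneg_right hβ1 hmn.le
    have e5 : η ^ 2 = ε ^ 2 / 4 := by rw [hη]; ring
    rw [e5] at e3
    have e6 : ε ^ 2 / 4 * (m * n) ≤ (B ^ 2 + L) ^ 2 * W.card := by linarith
    rw [ha]
    have e7 : 0 < (B ^ 2 + L) ^ 2 := by positivity
    have e8 : ε ^ 2 / (4 * (B ^ 2 + L) ^ 2) * (m * n) = ε ^ 2 / 4 * (m * n) / (B ^ 2 + L) ^ 2 := by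
      field_simp
    rw [e8, div_le_iff₀ e7]
    linarith
  -- apply the core
  set U : Fin n ⊕ Fin n → Fin m → ℝ := Sum.elim X XA with hU
  set V : Fin n ⊕ Fin n → Fin n → ℝ := Sum.elim Y (fun i y => - YA i y) with hV
  set mid : Fin m → Fin n → ℝ := fun x y => ∑ i ∈ Md, X i x * Y i y with hmiddef
  set tail : Fin m → Fin n → ℝ := fun x y => ∑ i ∈ Tl, X i x * Y i y with htaildef
  refine core hm hn (Hd1.disjSum Hd2) (Dd j) ?_ U V mid tail H ?_ (fun x y => P x y = 1) ?_ G G'
    (B := B) (η := η) (a := a) (t := t (j + 1) * C) (θ := θ j) (ρ := ρ j) (q := q j)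
    hB hηpos hapos (hρ j) ?_ ?_ ?_ ?_ W ?_ hcount (hq j) (hρD j) (ht1 j) (hθ j hjJ) (hθ2 j)
  · -- cardinality of the head
    rw [Finset.card_disjSum]
    have h1 : (Hd1.card : ℝ) ≤ C / t j := by
      rw [le_div_iff₀ (htpos j)]
      calc (Hd1.card : ℝ) * t j = ∑ _i ∈ Hd1, t j := by simp
        _ ≤ ∑ i ∈ Hd1, s i := Finset.sum_le_sum fun i hi => (Finset.mem_filter.mp hi).2.le
        _ ≤ ∑ i, s i := Finset.sum_le_sum_of_subset_of_nonneg (Finset.subset_univ _)
            fun i _ _ => hs0 i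
        _ ≤ C := hsC
    have h2 : (Hd2.card : ℝ) ≤ K := by
      rw [hHd2, hcardA]; exact_mod_cast hrank
    have h3 := hD j
    have : ((Hd1.card + Hd2.card : ℕ) : ℝ) ≤ Dd j := by push_cast; linarith
    exact_mod_cast this
  · -- decomposition
    intro x y
    have h1 : ∑ i ∈ Hd1.disjSum Hd2, U i x * V i y
        = ∑ i ∈ Hd1, X i x * Y i y - ∑ i ∈ Hd2, XA i x * YA i y := by
      rw [Finset.sum_disjSum]
      simp only [hU, hV, Sum.elim_inl, Sum.elim_inr]
      rw [sub_eq_add_neg, ← Finset.sum_neg_distrib]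
      congr 1
      exact Finset.sum_congr rfl fun i _ => by ring
    have h2 : A x y = ∑ i ∈ Hd2, XA i x * YA i y := by
      rw [hXYA, hHd2, Finset.sum_filter]
      refine Finset.sum_congr rfl fun i _ => ?_
      by_cases h : sA i = 0
      · simp [h, hXA0 i h x]
      · simp [h]
    have h3 : Ahat x y = ∑ i ∈ Hd1, X i x * Y i y + mid x y + tail x y := by
      rw [hXY]
      simp only [hmiddef, htaildef, hHd1, hMd, hTl, Finset.sum_filter]
      rw [← Finset.sum_add_distrib, ← Finset.sum_add_distrib]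
      refine Finset.sum_congr rfl fun i _ => ?_
      have hta := htanti j
      by_cases c1 : t j < s i
      · have c2 : ¬ (s i ≤ t j) := not_le.mpr c1
        have c3 : ¬ (s i ≤ t (j + 1)) := not_le.mpr (lt_of_le_of_lt hta c1)
        simp [c1, c2, c3]
      · by_cases c2 : t (j + 1) < s i
        · have c3 : ¬ (s i ≤ t (j + 1)) := not_le.mpr c2
          simp [c1, c2, c3, not_lt.mp c1]
        · simp [c1, c2, not_lt.mp c2]
    simp only [hHdef]
    rw [h1, h3, h2]
    ring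
  · intro x y hP
    have h := congrFun (congrFun hmin.1 x) y
    simp only [Matrix.hadamard_apply] at h
    rw [hP, mul_one, mul_one] at h
    simp only [hHdef]
    rw [h]; ring
  · intro x hx i hi
    have hx2 := (Finset.mem_filter.mp hx).2
    rcases i with i | i
    · simp only [hU, Sum.elim_inl]
      apply abs_le_of_sq_le_sq _ hB.le
      exact (Finset.single_le_sum (f := fun i => X i x ^ 2) (fun i _ => sq_nonneg _)
        (Finset.mem_univ i)).trans hx2.1
    · simp only [hU, Sum.elim_inr]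
      apply abs_le_of_sq_le_sq _ hB.le
      exact (Finset.single_le_sum (f := fun i => XA i x ^ 2) (fun i _ => sq_nonneg _)
        (Finset.mem_univ i)).trans hx2.2.1
  · intro y hy i hi
    have hy2 := (Finset.mem_filter.mp hy).2
    rcases i with i | i
    · simp only [hV, Sum.elim_inl]
      apply abs_le_of_sq_le_sq _ hB.le
      exact (Finset.single_le_sum (f := fun i => Y i y ^ 2) (fun i _ => sq_nonneg _)
        (Finset.mem_univ i)).trans hy2.1
    · simp only [hV, Sum.elim_inr]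
      rw [abs_neg]
      apply abs_le_of_sq_le_sq _ hB.le
      exact (Finset.single_le_sum (f := fun i => YA i y ^ 2) (fun i _ => sq_nonneg _)
        (Finset.mem_univ i)).trans hy2.2.1
  · intro x hx y hy
    have hx2 := (Finset.mem_filter.mp hx).2
    have hy2 := (Finset.mem_filter.mp hy).2
    simp only [hmiddef]
    apply abs_le_of_sq_le_sq _ (by positivity)
    refine (Finset.sum_mul_sq_le_sq_mul_sq _ _ _).trans ?_
    calc (∑ i ∈ Md, X i x ^ 2) * (∑ i ∈ Md, Y i y ^ 2) ≤ (η / 16) * (η / 16) :=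
          mul_le_mul hx2.2.2 hy2.2.2 (Finset.sum_nonneg fun i _ => sq_nonneg _) (by positivity)
      _ = (η / 16) ^ 2 := by ring
  · simp only [htaildef]
    have h1 : ∀ x, ∑ y, (∑ i ∈ Tl, X i x * Y i y) ^ 2 = ∑ i ∈ Tl, X i x ^ 2 * (s i * n) :=
      fun x => par Y s hY Tl (fun i => X i x)
    simp only [h1]
    rw [Finset.sum_comm]
    have h2 : ∀ i, ∑ x, X i x ^ 2 * (s i * n) = s i * s i * (m * n) := by
      intro i
      rw [← Finset.sum_mul]
      have := hX i i
      simp only [if_true] at this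
      have h3 : ∑ x, X i x ^ 2 = s i * m := by
        rw [← this]; exact Finset.sum_congr rfl fun x _ => by ring
      rw [h3]; ring
    simp only [h2]
    rw [← Finset.sum_mul]
    apply mul_le_mul_of_nonneg_right _ hmn.le
    calc ∑ i ∈ Tl, s i * s i ≤ ∑ i ∈ Tl, t (j + 1) * s i := by
          refine Finset.sum_le_sum fun i hi => ?_
          exact mul_le_mul_of_nonneg_right (Finset.mem_filter.mp hi).2 (hs0 i)
      _ = t (j + 1) * ∑ i ∈ Tl, s i := by rw [Finset.mul_sum]
      _ ≤ t (j + 1) * ∑ i, s i := by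
          apply mul_le_mul_of_nonneg_left _ (htpos _).le
          exact Finset.sum_le_sum_of_subset_of_nonneg (Finset.subset_univ _) fun i _ _ => hs0 i
      _ ≤ t (j + 1) * C := mul_le_mul_of_nonneg_left hsC (htpos _).le
  · intro z hz
    rw [hWdef, Finset.mem_filter, Finset.mem_product] at hz
    exact ⟨hz.1.1, hz.1.2, hz.2⟩

/-! ### Using stable recovery, and the theorem -/

lemma theta_exists (m n : ℕ → ℕ) (hm : Tendsto m atTop atTop) (hn : Tendsto n atTop atTop)
    (P : ∀ k, Matrix (Fin (m k)) (Fin (n k)) ℝ) (hP : ∀ k, IsBinary (P k))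
    (hrec : StableRecovery m n P) (c : ℝ) (hc : 0 < c) :
    ∃ θ : ℝ, 0 < θ ∧ ∀ᶠ k in atTop, ∀ (S : Finset (Fin (m k))) (T : Finset (Fin (n k))),
      c * (m k * n k) ≤ S.card * T.card →
      ∃ Z : Finset (Fin (m k) × Fin (n k)), (∀ z ∈ Z, z.1 ∈ S ∧ z.2 ∈ T ∧ P k z.1 z.2 = 1) ∧
        θ * (m k * n k) ≤ (Z.card : ℝ) := by
  classical
  obtain ⟨δ, hδ, h⟩ := hrec 1 1 (Real.sqrt c / 2) one_pos (by positivity)
  refine ⟨δ ^ 2, by positivity, ?_⟩
  by_contra hcon
  rw [Filter.not_eventually] at hcon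
  -- choose witnesses
  have hex : ∀ k, ∃ (S : Finset (Fin (m k))) (T : Finset (Fin (n k))),
      ((¬ ∀ (S : Finset (Fin (m k))) (T : Finset (Fin (n k))),
      c * (m k * n k) ≤ S.card * T.card →
      ∃ Z : Finset (Fin (m k) × Fin (n k)), (∀ z ∈ Z, z.1 ∈ S ∧ z.2 ∈ T ∧ P k z.1 z.2 = 1) ∧
        δ ^ 2 * (m k * n k) ≤ (Z.card : ℝ)) → c * (m k * n k) ≤ S.card * T.card) ∧
      (((S ×ˢ T).filter (fun z => P k z.1 z.2 = 1)).card : ℝ) ≤ δ ^ 2 * (m k * n k) := by
    intro k
    by_cases hk : ∀ (S : Finset (Fin (m k))) (T : Finset (Fin (n k))),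
      c * (m k * n k) ≤ S.card * T.card →
      ∃ Z : Finset (Fin (m k) × Fin (n k)), (∀ z ∈ Z, z.1 ∈ S ∧ z.2 ∈ T ∧ P k z.1 z.2 = 1) ∧
        δ ^ 2 * (m k * n k) ≤ (Z.card : ℝ)
    · refine ⟨∅, ∅, fun hk' => absurd hk hk', ?_⟩
      simp only [Finset.empty_product, Finset.filter_empty, Finset.card_empty, Nat.cast_zero]
      positivity
    · have hk0 := hk
      push Not at hk
      obtain ⟨S, T, h1, h2⟩ := hk
      refine ⟨S, T, fun _ => h1, ?_⟩
      refine (h2 ((S ×ˢ T).filter (fun z => P k z.1 z.2 = 1)) ?_).le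
      intro z hz
      rw [Finset.mem_filter, Finset.mem_product] at hz
      exact ⟨hz.1.1, hz.1.2, hz.2⟩
  choose S T hST1 hST2 using hex
  set A : ∀ k, Matrix (Fin (m k)) (Fin (n k)) ℝ := fun k =>
    Matrix.vecMulVec (fun x => if x ∈ S k then (1 : ℝ) else 0)
      (fun y => if y ∈ T k then (1 : ℝ) else 0) with hA
  have hAval : ∀ k x y, A k x y = if x ∈ S k ∧ y ∈ T k then 1 else 0 := by
    intro k x y
    simp only [hA, Matrix.vecMulVec_apply]
    by_cases h1 : x ∈ S k <;> by_cases h2 : y ∈ T k <;> simp [h1, h2]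
  have hfin : ∀ k, (∑ x, ∑ y, (A k x y) ^ 2) = ((S k).card : ℝ) * (T k).card := by
    intro k
    have e : ∀ x y, (A k x y) ^ 2 = if (x, y) ∈ S k ×ˢ T k then (1 : ℝ) else 0 := by
      intro x y
      simp only [hAval, Finset.mem_product]
      split_ifs <;> simp
    simp only [e]
    rw [← Fintype.sum_prod_type' (f := fun x y => if (x, y) ∈ S k ×ˢ T k then (1 : ℝ) else 0)]
    simp only [Prod.mk.eta]
    rw [Finset.sum_ite_mem, Finset.univ_inter, Finset.sum_const, nsmul_eq_mul, mul_one,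
      Finset.card_product]
    push_cast; rfl
  have hfinP : ∀ k, (∑ x, ∑ y, (A k x y * P k x y) ^ 2)
      = ((((S k) ×ˢ (T k)).filter (fun z => P k z.1 z.2 = 1)).card : ℝ) := by
    intro k
    have e : ∀ x y, (A k x y * P k x y) ^ 2
        = if (x, y) ∈ ((S k) ×ˢ (T k)).filter (fun z => P k z.1 z.2 = 1) then (1 : ℝ) else 0 := by
      intro x y
      simp only [hAval, Finset.mem_filter, Finset.mem_product]
      rcases hP k x y with h0 | h1
      · simp [h0]
      · by_cases hxy : x ∈ S k ∧ y ∈ T k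
        · simp [h1, hxy]
        · simp [h1, hxy]
    simp only [e]
    rw [← Fintype.sum_prod_type' (f := fun x y =>
      if (x, y) ∈ ((S k) ×ˢ (T k)).filter (fun z => P k z.1 z.2 = 1) then (1 : ℝ) else 0)]
    simp only [Prod.mk.eta]
    rw [Finset.sum_ite_mem, Finset.univ_inter, Finset.sum_const, nsmul_eq_mul, mul_one]
  have hfroP : ∀ k, fro ((A k - 0) ⊙ P k) ≤ δ := by
    intro k
    unfold fro
    simp only [sub_zero, Matrix.hadamard_apply]
    rw [hfinP k, Real.sqrt_le_left hδ.le]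
    by_cases h0 : (m k : ℝ) * n k = 0
    · rw [h0, div_zero]; positivity
    · have hpos : (0 : ℝ) < (m k : ℝ) * n k := lt_of_le_of_ne (by positivity) (Ne.symm h0)
      rw [div_le_iff₀ hpos]
      exact hST2 k
  have hfro : ∀ k, fro (A k - 0) = Real.sqrt (((S k).card : ℝ) * (T k).card / (m k * n k)) := by
    intro k
    unfold fro
    simp only [sub_zero]
    rw [hfin k]
  have hlim := h A (fun _ => 0) (by
    intro k
    refine ⟨Matrix.rank_vecMulVec_le _ _, by simp, ?_, by simp⟩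
    intro i j
    rw [hAval]
    split_ifs <;> simp)
    (Filter.limsup_le_of_le (Filter.IsCoboundedUnder.of_frequently_ge (a := 0)
      (Filter.Frequently.of_forall fun k => Real.sqrt_nonneg _))
      (Filter.Eventually.of_forall hfroP))
  have hbdd : IsBoundedUnder (· ≤ ·) atTop (fun k => fro (A k - 0)) := by
    refine Filter.isBoundedUnder_of ⟨1, fun k => ?_⟩
    rw [hfro k, Real.sqrt_le_left zero_le_one, one_pow]
    apply div_le_one_of_le₀ _ (by positivity)
    have h1 : ((S k).card : ℝ) ≤ m k := by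
      have := Finset.card_le_univ (S k)
      rw [Fintype.card_fin] at this
      exact_mod_cast this
    have h2 : ((T k).card : ℝ) ≤ n k := by
      have := Finset.card_le_univ (T k)
      rw [Fintype.card_fin] at this
      exact_mod_cast this
    exact mul_le_mul h1 h2 (Nat.cast_nonneg _) (Nat.cast_nonneg _)
  have hev := Filter.eventually_lt_of_limsup_lt (lt_of_le_of_lt hlim
    (show Real.sqrt c / 2 < Real.sqrt c by
      have : 0 < Real.sqrt c := Real.sqrt_pos.mpr hc
      linarith)) hbdd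
  have hmpos : ∀ᶠ k in atTop, 0 < m k := hm.eventually_gt_atTop 0
  have hnpos : ∀ᶠ k in atTop, 0 < n k := hn.eventually_gt_atTop 0
  obtain ⟨k, hk1, hk2, hk3, hk4⟩ :=
    (hcon.and_eventually (hev.and (hmpos.and hnpos))).exists
  have hb := hST1 k hk1
  have hmr : (0 : ℝ) < m k := by exact_mod_cast hk3
  have hnr : (0 : ℝ) < n k := by exact_mod_cast hk4
  rw [hfro k] at hk2
  have : c ≤ ((S k).card : ℝ) * (T k).card / (m k * n k) := by
    rw [le_div_iff₀ (by positivity)]; exact hb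
  exact absurd hk2 (not_lt.mpr (Real.sqrt_le_sqrt this))

/-- **Universal recovery by unconstrained nuclear norm minimisation.** -/
theorem result (m n : ℕ → ℕ) (hm : Tendsto m atTop atTop) (hn : Tendsto n atTop atTop)
    (P : ∀ k, Matrix (Fin (m k)) (Fin (n k)) ℝ) (hP : ∀ k, IsBinary (P k))
    (hrec : StableRecovery m n P)
    (A : ∀ k, Matrix (Fin (m k)) (Fin (n k)) ℝ)
    (hAr : ∃ K : ℕ, ∀ k, (A k).rank ≤ K) (hAb : ∃ L : ℝ, ∀ k i j, |A k i j| ≤ L)
    (Ahat : ∀ k, Matrix (Fin (m k)) (Fin (n k)) ℝ)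
    (hmin : ∀ k, IsNucMin (A k) (P k) (Ahat k)) :
    Tendsto (fun k => fro (Ahat k - A k)) atTop (𝓝 0) := by
  classical
  obtain ⟨K0, hK0⟩ := hAr
  obtain ⟨L0, hL0⟩ := hAb
  set K : ℕ := K0 + 1 with hK
  set L : ℝ := |L0| + 1 with hL
  have hLpos : 0 < L := by positivity
  have hrank : ∀ k, (A k).rank ≤ K := fun k => (hK0 k).trans (Nat.le_succ _)
  have hA : ∀ k i j, |A k i j| ≤ L := fun k i j =>
    (hL0 k i j).trans ((le_abs_self L0).trans (by linarith))
  set C : ℝ := K * L with hC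
  have hCpos : 0 < C := by
    rw [hC, hK]; push_cast; positivity
  rw [Metric.tendsto_nhds]
  intro ε hε
  -- constants
  set r : ℝ := min 1 (ε ^ 2 / (2 * (8 * C ^ 2 + 4 * L ^ 2))) with hr
  have hrpos : 0 < r := lt_min one_pos (by positivity)
  set β : ℝ := r ^ 2 with hβ
  have hβpos : 0 < β := by positivity
  have hβ1 : 8 * C ^ 2 * Real.sqrt β + 4 * L ^ 2 * β ≤ ε ^ 2 / 2 := by
    rw [hβ, Real.sqrt_sq hrpos.le]
    have h1 : r ≤ 1 := min_le_left _ _
    have h2 : r ≤ ε ^ 2 / (2 * (8 * C ^ 2 + 4 * L ^ 2)) := min_le_right _ _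
    have h3 : r ^ 2 ≤ r := by nlinarith
    have h4 : (8 * C ^ 2 + 4 * L ^ 2) * r ≤ ε ^ 2 / 2 := by
      calc (8 * C ^ 2 + 4 * L ^ 2) * r
          ≤ (8 * C ^ 2 + 4 * L ^ 2) * (ε ^ 2 / (2 * (8 * C ^ 2 + 4 * L ^ 2))) :=
            mul_le_mul_of_nonneg_left h2 (by positivity)
        _ = ε ^ 2 / 2 := by field_simp
    have h5 : 4 * L ^ 2 * r ^ 2 ≤ 4 * L ^ 2 * r := mul_le_mul_of_nonneg_left h3 (by positivity)
    linarith
  set B : ℝ := max 1 (4 * C / β) with hB
  have hB1 : 1 ≤ B := le_max_left _ _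
  have hBpos : 0 < B := by linarith
  have hBβ : C / B ^ 2 ≤ β / 4 := by
    have h1 : 4 * C / β ≤ B := le_max_right _ _
    rw [div_le_iff₀ hβpos] at h1
    rw [div_le_iff₀ (by positivity)]
    nlinarith [mul_pos hβpos hBpos]
  set η : ℝ := ε / 2 with hη
  have hηpos : 0 < η := by positivity
  set a : ℝ := ε ^ 2 / (4 * (B ^ 2 + L) ^ 2) with ha
  have hapos : 0 < a := by positivity
  set J : ℕ := ⌈4 * C / (β * (η / 16))⌉₊ + 1 with hJ
  have hJpos : 0 < J := Nat.succ_pos _
  have hJ1 : (C / J) / (η / 16) ≤ β / 4 := by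
    have hJr : (0 : ℝ) < J := by exact_mod_cast hJpos
    have h1 : 4 * C / (β * (η / 16)) ≤ J := by
      refine (Nat.le_ceil _).trans ?_
      rw [hJ]; push_cast; linarith
    rw [div_le_iff₀ (by positivity)] at h1
    rw [div_div, div_le_iff₀ (by positivity)]
    linarith
  -- functions of the scale
  set D : ℝ → ℕ := fun t => ⌈C / t + K⌉₊ + 1 with hD
  have hDpos : ∀ t, (0 : ℝ) < D t := by
    intro t; simp only [hD]; positivity
  set ρ : ℝ → ℝ := fun t => η / (16 * B * D t) with hρ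
  have hρpos : ∀ t, 0 < ρ t := by
    intro t
    have := hDpos t
    simp only [hρ]; positivity
  set q : ℝ → ℕ := fun t => ⌈B / ρ t⌉₊ with hq
  set c : ℝ → ℝ := fun t => a / (2 * ((2 * q t + 1 : ℕ) : ℝ) ^ (2 * D t)) with hc
  have hcpos : ∀ t, 0 < c t := by
    intro t; simp only [hc]; positivity
  have hΘ : ∀ t : ℝ, ∃ θ : ℝ, 0 < θ ∧ ∀ᶠ k in atTop, ∀ (S : Finset (Fin (m k)))
      (T : Finset (Fin (n k))), c t * (m k * n k) ≤ S.card * T.card →
      ∃ Z : Finset (Fin (m k) × Fin (n k)), (∀ z ∈ Z, z.1 ∈ S ∧ z.2 ∈ T ∧ P k z.1 z.2 = 1) ∧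
        θ * (m k * n k) ≤ (Z.card : ℝ) := fun t => theta_exists m n hm hn P hP hrec (c t) (hcpos t)
  choose Θ hΘpos hΘ2 using hΘ
  set F : ℝ → ℝ := fun t => min t (min (a * η ^ 2 / (8 * C)) (Θ t * η ^ 2 / (32 * C))) with hF
  set t : ℕ → ℝ := fun j => F^[j] 1 with ht
  have htsucc : ∀ j, t (j + 1) = F (t j) := fun j => Function.iterate_succ_apply' F j 1
  have htpos : ∀ j, 0 < t j := by
    intro j
    induction j with
    | zero => simp [ht]
    | succ j ih =>
      rw [htsucc]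
      simp only [hF]
      have := hΘpos (t j)
      exact lt_min ih (lt_min (by positivity) (by positivity))
  have htanti : ∀ j, t (j + 1) ≤ t j := by
    intro j; rw [htsucc]; exact min_le_left _ _
  have hev : ∀ᶠ k in atTop, ∀ j ∈ Finset.range J, ∀ (S : Finset (Fin (m k)))
      (T : Finset (Fin (n k))), c (t j) * (m k * n k) ≤ S.card * T.card →
      ∃ Z : Finset (Fin (m k) × Fin (n k)), (∀ z ∈ Z, z.1 ∈ S ∧ z.2 ∈ T ∧ P k z.1 z.2 = 1) ∧
        Θ (t j) * (m k * n k) ≤ (Z.card : ℝ) := by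
    rw [Filter.eventually_all_finset]
    intro j _
    exact hΘ2 (t j)
  filter_upwards [hev, hm.eventually_gt_atTop 0, hn.eventually_gt_atTop 0] with k hk hmk hnk
  have hmain := assemble hmk hnk (hmin k) hLpos (hrank k) (hA k) (ε := ε) (β := β) (B := B)
    (η := η) (a := a) (C := C) (J := J) hε hC hCpos hβpos hβ1 hBpos hBβ hη ha hJpos hJ1
    t htpos htanti (fun j => D (t j)) (fun j => q (t j)) (fun j => ρ (t j)) (fun j => Θ (t j))
    (fun j => hρpos _)
    (by
      intro j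
      simp only [hD]
      refine (Nat.le_ceil _).trans ?_
      push_cast; linarith)
    (by
      intro j
      simp only [hq]
      exact Nat.le_ceil _)
    (by
      intro j
      have h1 := hDpos (t j)
      simp only [hρ]
      apply le_of_eq
      field_simp
      ring)
    (by
      intro j
      have h1 : t (j + 1) ≤ a * η ^ 2 / (8 * C) := by
        rw [htsucc]; exact (min_le_right _ _).trans (min_le_left _ _)
      rw [le_div_iff₀ (by positivity)] at h1
      rw [div_le_iff₀ (by positivity)]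
      linarith)
    (by
      intro j
      have h1 : t (j + 1) ≤ Θ (t j) * η ^ 2 / (32 * C) := by
        rw [htsucc]; exact (min_le_right _ _).trans (min_le_right _ _)
      rw [le_div_iff₀ (by positivity)] at h1
      rw [div_lt_iff₀ (by positivity)]
      have h2 : 0 < Θ (t j) * η ^ 2 := mul_pos (hΘpos _) (by positivity)
      linarith)
    (fun j hj S T hST => hk j (Finset.mem_range.mpr hj) S T hST)
  rw [Real.dist_eq, sub_zero]
  unfold fro
  rw [abs_of_nonneg (Real.sqrt_nonneg _), Real.sqrt_lt' hε]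
  have hmr : (0 : ℝ) < m k := by exact_mod_cast hmk
  have hnr : (0 : ℝ) < n k := by exact_mod_cast hnk
  rw [div_lt_iff₀ (by positivity)]
  simpa only [Matrix.sub_apply] using hmain

end

end Pool.Agent.Results.MP_afaa81_pr.NuclearRecovery
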